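import Pool.Agent.W908.M.M1

/-! Counting with hidden values that are found one after the other, when every found value gives
one further bit. -/

set_option autoImplicit false
set_option linter.unusedSectionVars false

namespace Pool.Agent.W908.TS

open Finset Pool.Agent.W908.MS

variable {X : Type} [Fintype X] [DecidableEq X] {V : X → Type} [∀ x, Fintype (V x)]
  [∀ x, Nonempty (V x)]

theorem reach_mono {H H' : Finset X → (∀ x, V x) → ∀ x, V x → Prop} {ω : ∀ x, V x} {S : Finset X}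
    (h : Reach H ω S) : (∀ S' ⊆ S, ∀ x v, H S' ω x v → H' S' ω x v) → Reach H' ω S := by
  induction h with
  | nil => intro _; exact Reach.nil
  | @step S x h1 hx hh ih =>
    intro h2
    refine (ih fun S' hS' => h2 S' (hS'.trans (Finset.subset_insert _ _))).step hx ?_
    exact h2 S (Finset.subset_insert _ _) _ _ hh

/-- the bits given by a set -/
def bs (T : Finset X) (x : X) : Bool := decide (x ∈ T)

open Classical in
/-- The number of the bad cases. -/
theorem card_bad2 {θ δ E : ℝ} (hθ : 0 < θ)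
    {m : (X → Bool) → Finset X → (∀ x, V x) → ∀ x, V x → ℝ}
    (hloc : ∀ β β' S ω ω', (∀ x ∈ S, β x = β' x) → Eqo S ω ω' → m β S ω = m β' S ω')
    (hm : ∀ β S ω x v, 0 ≤ m β S ω x v)
    {ρ : X → ℝ} (hρ : ∀ x, 0 ≤ ρ x)
    (hB : ∀ β S ω x, ((univ.filter (fun v => θ < m β S ω x v)).card : ℝ) ≤
      ρ x * Fintype.card (V x)) {σ : ℝ} (hσ : 2 * ∑ x, ρ x ≤ σ) (hσ2 : σ ≤ 1 / 2)
    (hE : ∀ β S ω, ∑ x, (∑ v, m β S ω x v) / Fintype.card (V x) ≤ E) (r : ℕ)
    (b : (∀ x, V x) → X → Bool) :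
    ((univ.filter (fun ω : ∀ x, V x => ∃ S,
      Reach (fun S ω' x v => θ < m (b ω) S ω' x v) ω S ∧ (r ≤ S.card ∨
        ((∀ x, x ∉ S → m (b ω) S ω x (ω x) ≤ θ) ∧
          δ < ∑ x ∈ Sᶜ, m (b ω) S ω x (ω x))))).card : ℝ) ≤
      (σ ^ r + 2 * Real.exp (-(δ / θ) + 2 * E / θ)) * Fintype.card (∀ x, V x) := by
  obtain ⟨H, hHd⟩ : ∃ H : Finset X → Finset X → (∀ x, V x) → ∀ x, V x → Prop,
    H = fun T S ω x v => θ < m (bs T) S ω x v := ⟨_, rfl⟩
  have hH : ∀ T S ω ω', Eqo S ω ω' → ∀ x v, H T S ω x v ↔ H T S ω' x v := by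
    intro T S ω ω' h x v
    rw [hHd]
    simp only
    rw [hloc (bs T) (bs T) S ω ω' (fun _ _ => rfl) h]
  have hB' : ∀ T S ω x, ((univ.filter (fun w => H T S ω x w)).card : ℝ) ≤
      ρ x * Fintype.card (V x) := by
    intro T S ω x
    rw [hHd]
    exact hB (bs T) S ω x
  have hN : ∀ T S : Finset X, ((univ.filter (fun ω => Reach (H T) ω S)).card : ℝ) ≤
      S.card.factorial * (∏ x ∈ S, ρ x) * Fintype.card (∀ x, V x) :=
    fun T S => card_reach (hH T) hρ (hB' T) S.card S rfl
  have hc : (0 : ℝ) ≤ Fintype.card (∀ x, V x) := Nat.cast_nonneg _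
  have hρ2 : ∀ x, 0 ≤ 2 * ρ x := fun x => by have := hρ x; positivity
  have hσ0 : 0 ≤ ∑ x, 2 * ρ x := Finset.sum_nonneg fun x _ => hρ2 x
  have hσ' : ∑ x, 2 * ρ x ≤ σ := by rw [← Finset.mul_sum]; exact hσ
  have hes : ∀ s : ℕ, (s.factorial : ℝ) * ∑ S ∈ powersetCard s (univ : Finset X),
      ∏ x ∈ S, (2 * ρ x) ≤ σ ^ s := fun s =>
    (esym_le hρ2 s).trans (pow_le_pow_left₀ hσ0 hσ' s)
  have hprod : ∀ S : Finset X, ∏ x ∈ S, (2 * ρ x) = 2 ^ S.card * ∏ x ∈ S, ρ x := by
    intro S
    rw [Finset.prod_mul_distrib, Finset.prod_const]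
  obtain ⟨τ, hτ⟩ : ∃ τ, τ = Real.exp (-(δ / θ) + 2 * E / θ) := ⟨_, rfl⟩
  have hτ0 : 0 ≤ τ := by rw [hτ]; exact (Real.exp_pos _).le
  rw [← hτ]
  obtain ⟨Tl, hTl⟩ : ∃ Tl : Finset X → Finset X → (∀ x, V x) → Prop, Tl = fun T S ω =>
    (∀ x, x ∉ S → m (bs T) S ω x (ω x) ≤ θ) ∧ δ < ∑ x ∈ Sᶜ, m (bs T) S ω x (ω x) := ⟨_, rfl⟩
  have hbs : ∀ (ω : ∀ x, V x) (S : Finset X), ∀ x ∈ S, bs (S.filter (fun x => b ω x = true)) x =
      b ω x := by
    intro ω S x hx
    unfold bs
    cases hb : b ω x with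
    | true => exact decide_eq_true (Finset.mem_filter.2 ⟨hx, hb⟩)
    | false =>
      refine decide_eq_false fun h => ?_
      rw [(Finset.mem_filter.1 h).2] at hb
      exact Bool.noConfusion hb
  have hre : ∀ (ω : ∀ x, V x) (S : Finset X),
      Reach (fun S ω' x v => θ < m (b ω) S ω' x v) ω S →
      Reach (H (S.filter (fun x => b ω x = true))) ω S := by
    intro ω S h
    refine reach_mono h fun S' hS' x v hh => ?_
    rw [hHd]
    simp only
    rw [hloc _ (b ω) S' ω ω (fun y hy => hbs ω S y (hS' hy)) (fun _ _ => rfl)]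
    exact hh
  have hsub : (univ.filter (fun ω : ∀ x, V x => ∃ S,
      Reach (fun S ω' x v => θ < m (b ω) S ω' x v) ω S ∧ (r ≤ S.card ∨
        ((∀ x, x ∉ S → m (b ω) S ω x (ω x) ≤ θ) ∧
          δ < ∑ x ∈ Sᶜ, m (b ω) S ω x (ω x))))) ⊆
      ((powersetCard r (univ : Finset X)).biUnion (fun S => S.powerset.biUnion (fun T =>
        univ.filter (fun ω : ∀ x, V x => Reach (H T) ω S)))) ∪
      ((univ : Finset X).powerset.biUnion (fun S => S.powerset.biUnion (fun T =>
        univ.filter (fun ω : ∀ x, V x => Reach (H T) ω S ∧ Tl T S ω)))) := by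
    intro ω hω
    rw [Finset.mem_filter] at hω
    obtain ⟨-, S, hS, h⟩ := hω
    rw [Finset.mem_union, Finset.mem_biUnion, Finset.mem_biUnion]
    rcases h with h | h
    · left
      obtain ⟨S', h1, h2⟩ := hS.sub r h
      exact ⟨S', Finset.mem_powersetCard.2 ⟨Finset.subset_univ _, h1⟩, Finset.mem_biUnion.2
        ⟨S'.filter (fun x => b ω x = true), Finset.mem_powerset.2 (Finset.filter_subset _ _),
          Finset.mem_filter.2 ⟨Finset.mem_univ _, hre ω S' h2⟩⟩⟩
    · right
      refine ⟨S, Finset.mem_powerset.2 (Finset.subset_univ _), Finset.mem_biUnion.2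
        ⟨S.filter (fun x => b ω x = true), Finset.mem_powerset.2 (Finset.filter_subset _ _),
        Finset.mem_filter.2 ⟨Finset.mem_univ _, hre ω S hS, ?_⟩⟩⟩
      rw [hTl]
      simp only
      rw [hloc _ (b ω) S ω ω (hbs ω S) (fun _ _ => rfl)]
      exact h
  have h1 : ((univ.filter (fun ω : ∀ x, V x => ∃ S,
      Reach (fun S ω' x v => θ < m (b ω) S ω' x v) ω S ∧ (r ≤ S.card ∨
        ((∀ x, x ∉ S → m (b ω) S ω x (ω x) ≤ θ) ∧
          δ < ∑ x ∈ Sᶜ, m (b ω) S ω x (ω x))))).card : ℝ) ≤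
      (∑ S ∈ powersetCard r (univ : Finset X), ∑ T ∈ S.powerset,
        ((univ.filter (fun ω : ∀ x, V x => Reach (H T) ω S)).card : ℝ)) +
      ∑ S ∈ (univ : Finset X).powerset, ∑ T ∈ S.powerset,
        ((univ.filter (fun ω : ∀ x, V x => Reach (H T) ω S ∧ Tl T S ω)).card : ℝ) := by
    have := (Finset.card_le_card hsub).trans ((Finset.card_union_le _ _).trans
      (add_le_add (Finset.card_biUnion_le.trans (Finset.sum_le_sum fun S _ =>
        Finset.card_biUnion_le)) (Finset.card_biUnion_le.trans (Finset.sum_le_sum fun S _ =>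
        Finset.card_biUnion_le))))
    exact_mod_cast this
  refine h1.trans ?_
  rw [add_mul]
  refine add_le_add ?_ ?_
  · calc ∑ S ∈ powersetCard r (univ : Finset X), ∑ T ∈ S.powerset,
          ((univ.filter (fun ω : ∀ x, V x => Reach (H T) ω S)).card : ℝ)
        ≤ ∑ S ∈ powersetCard r (univ : Finset X),
          (r.factorial * ∏ x ∈ S, (2 * ρ x)) * Fintype.card (∀ x, V x) := by
          refine Finset.sum_le_sum fun S hS => ?_
          refine (Finset.sum_le_sum fun T _ => hN T S).trans (le_of_eq ?_)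
          rw [Finset.sum_const, Finset.card_powerset, nsmul_eq_mul, hprod,
            (Finset.mem_powersetCard.1 hS).2]
          push_cast
          ring
      _ = (r.factorial * ∑ S ∈ powersetCard r (univ : Finset X), ∏ x ∈ S, (2 * ρ x)) *
          Fintype.card (∀ x, V x) := by rw [← Finset.sum_mul, ← Finset.mul_sum]
      _ ≤ σ ^ r * Fintype.card (∀ x, V x) := mul_le_mul_of_nonneg_right (hes r) hc
  · have h2 : ∀ S ∈ (univ : Finset X).powerset, ∑ T ∈ S.powerset,
        ((univ.filter (fun ω : ∀ x, V x => Reach (H T) ω S ∧ Tl T S ω)).card : ℝ) ≤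
        τ * (S.card.factorial * (∏ x ∈ S, (2 * ρ x)) * Fintype.card (∀ x, V x)) := by
      intro S _
      have h3 : ∀ T ∈ S.powerset,
          ((univ.filter (fun ω : ∀ x, V x => Reach (H T) ω S ∧ Tl T S ω)).card : ℝ) ≤
          τ * (S.card.factorial * (∏ x ∈ S, ρ x) * Fintype.card (∀ x, V x)) := by
        intro T _
        refine (card_indep S (P := fun ω => Reach (H T) ω S) (Q := fun ω => Tl T S ω) (τ := τ)
          (fun ω ω' he h => h.congr (hH T) he) fun ω => ?_).trans
          (mul_le_mul_of_nonneg_left (hN T S) hτ0)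
        have h3 := card_tail S (m := m (bs T) S ω) (hm (bs T) S ω) (θ := θ) (δ := δ) hθ (E := E)
          (hE (bs T) S ω)
        rw [← hτ] at h3
        refine le_trans ?_ h3
        have h4 : (univ.filter (fun ω' : ∀ x, V x => Tl T S (mixS S ω ω'))) ⊆
            (univ.filter (fun ω' : ∀ x, V x => (∀ x, x ∉ S → m (bs T) S ω x (ω' x) ≤ θ) ∧
              δ < ∑ x ∈ Sᶜ, m (bs T) S ω x (ω' x))) := by
          intro ω' hω'
          rw [Finset.mem_filter] at hω' ⊢
          refine ⟨Finset.mem_univ _, ?_⟩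
          have h5 := hω'.2
          rw [hTl] at h5
          rw [← hloc (bs T) (bs T) S ω (mixS S ω ω') (fun _ _ => rfl) (eqo_mix S ω ω')] at h5
          have h6 : ∀ x, x ∉ S → mixS S ω ω' x = ω' x := by
            intro x hx
            unfold mixS
            rw [if_neg hx]
          refine ⟨fun x hx => ?_, ?_⟩
          · have := h5.1 x hx
            rwa [h6 x hx] at this
          · rw [Finset.sum_congr rfl fun x hx => by rw [h6 x (Finset.mem_compl.1 hx)]] at h5
            exact h5.2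
        exact_mod_cast Finset.card_le_card h4
      refine (Finset.sum_le_sum h3).trans (le_of_eq ?_)
      rw [Finset.sum_const, Finset.card_powerset, nsmul_eq_mul, hprod]
      push_cast
      ring
    refine (Finset.sum_le_sum h2).trans ?_
    rw [← Finset.mul_sum, ← Finset.sum_mul]
    have h3 : ∑ S ∈ (univ : Finset X).powerset, (S.card.factorial : ℝ) *
        ∏ x ∈ S, (2 * ρ x) ≤ 2 := by
      rw [Finset.sum_powerset]
      have h4 : ∀ s ∈ range ((univ : Finset X).card + 1),
          ∑ S ∈ powersetCard s (univ : Finset X), (S.card.factorial : ℝ) *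
            ∏ x ∈ S, (2 * ρ x) ≤ (1 / 2) ^ s := by
        intro s _
        have h5 : ∑ S ∈ powersetCard s (univ : Finset X), (S.card.factorial : ℝ) *
            ∏ x ∈ S, (2 * ρ x) = s.factorial * ∑ S ∈ powersetCard s (univ : Finset X),
              ∏ x ∈ S, (2 * ρ x) := by
          rw [Finset.mul_sum]
          refine Finset.sum_congr rfl fun S hS => ?_
          rw [(Finset.mem_powersetCard.1 hS).2]
        rw [h5]
        exact (hes s).trans (pow_le_pow_left₀ (hσ0.trans hσ') hσ2 s)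
      exact (Finset.sum_le_sum h4).trans (sum_geometric_two_le _)
    calc τ * ((∑ S ∈ (univ : Finset X).powerset, (S.card.factorial : ℝ) *
          ∏ x ∈ S, (2 * ρ x)) *
          Fintype.card (∀ x, V x)) ≤ τ * (2 * Fintype.card (∀ x, V x)) :=
          mul_le_mul_of_nonneg_left (mul_le_mul_of_nonneg_right h3 hc) hτ0
      _ = _ := by ring

end Pool.Agent.W908.TS
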