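import Pool.Agent.W908.T.T9

/-! The first bits of the keys cannot be foreseen. -/

set_option autoImplicit false

namespace Pool.Agent.W908.TS

open Pool.Agent.NPC Pool.Agent.H620R2.Gauge Pool.Agent.H622R2 Pool.Agent.H676 Finset H568R2
open Pool.Agent.W908.MS
open Pool.Agent.W908.PS (cmb gq cmb_congr length_gq Rare pre_local idx_lt_pow qq qb qb_spec
  out_congr)
open Pool.Agent.W908.SP (mem_strsOf' card_strsOf' idx_inj Ex_owr Ex_unif_av unif_nn unif_sm)
open Pool.Agent.W908.KS (kp length_kp kp_inj)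

variable {N₀ L : ℕ}

/-- many keys are found -/
def PA (M : Alg) (n : ℕ) (h : List Bool) (r : ℕ) (κ₀ : List Bool → List Bool)
    (β : XT N₀ L → Bool) (ω : ∀ x : XT N₀ L, VU x) : Prop :=
  ∃ S, Reach (fun S ω' z v => 1 / 2 < mA M n h κ₀ β S ω' z v) ω S ∧ r ≤ S.card

theorem PA_short {M : Alg} {n : ℕ} {h : List Bool} {r : ℕ} {κ₀ κ₀' : List Bool → List Bool}
    {β : XT N₀ L → Bool} {ω : ∀ x : XT N₀ L, VU x}
    (hk : ∀ z : List Bool, 2 ^ (9 * z.length + 4) ≤ N₀ → κ₀ z = κ₀' z) :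
    PA M n h r κ₀ β ω ↔ PA M n h r κ₀' β ω := by
  have h1 : (fun (S : Finset (XT N₀ L)) (ω' : ∀ x : XT N₀ L, VU x) (z : XT N₀ L) (v : VU z) =>
      1 / 2 < mA M n h κ₀ β S ω' z v) = fun S ω' z v => 1 / 2 < mA M n h κ₀' β S ω' z v := by
    funext S ω' z v
    unfold mA HA
    rw [WO_short hk]
  unfold PA
  rw [h1]

open Classical in
/-- the bits given by a short list of strings -/
noncomputable def bf {r : ℕ} (f : Fin r → Option (XT N₀ L)) (z : XT N₀ L) : Bool :=
  decide (∃ i, f i = some z)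

/-- if the algorithm is often right then many keys are found or it is also often right for
some fixed bits of the long strings -/
theorem comb {W : Oracle} {M : Alg} {n r : ℕ} {h : List Bool} {t : ℝ}
    (hq : ∀ (x : Fin n → Bool) (O : Oracle), ∀ q ∈ qq M O (pairBits (List.ofFn x) h),
      q.length ≤ L)
    (ht : t < AGi W (OT W) M n h) :
    PA M n h r (val2 W) (bt N₀ L W) (om2 N₀ L W) ∨
      ∃ f : Fin r → Option (XT N₀ L), t < AGi W (OC W (bf f)) M n h := by
  classical
  obtain ⟨S, hS, hmax⟩ := exists_max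
    (fun S ω' z v => 1 / 2 < mA M n h (val2 W) (bt N₀ L W) S ω' z v) (om2 N₀ L W)
  by_cases hr : r ≤ S.card
  · exact Or.inl ⟨S, hS, hr⟩
  right
  push Not at hr
  have hmax' : ∀ z ∉ S, ¬ HA M n h (val2 W) (bt N₀ L W) S (om2 N₀ L W) z (om2 N₀ L W z) :=
    fun z hz hh => hmax z hz (mA_lt.2 hh)
  obtain ⟨T, hT⟩ : ∃ T : Finset (XT N₀ L), T = S.filter (fun z => bt N₀ L W z = true) :=
    ⟨_, rfl⟩
  have hTc : T.card < r := by
    refine lt_of_le_of_lt ?_ hr
    rw [hT]
    exact Finset.card_filter_le _ _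
  refine ⟨fun i => T.toList[i.val]?, ?_⟩
  have hβ : ∀ z ∈ S, bf (fun i : Fin r => T.toList[i.val]?) z = bt N₀ L W z := by
    intro z hz
    unfold bf
    rw [Bool.eq_iff_iff, decide_eq_true_eq]
    constructor
    · rintro ⟨i, hi⟩
      have h1 := List.mem_of_getElem? hi
      rw [Finset.mem_toList, hT, Finset.mem_filter] at h1
      exact h1.2
    · intro hb
      have h1 : z ∈ T.toList := by
        rw [Finset.mem_toList, hT, Finset.mem_filter]
        exact ⟨hz, hb⟩
      obtain ⟨i, hi, hi2⟩ := List.mem_iff_getElem.1 h1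
      rw [Finset.length_toList] at hi
      refine ⟨⟨i, by omega⟩, ?_⟩
      rw [← hi2]
      exact List.getElem?_eq_getElem _
  refine ht.trans_le (le_of_eq ?_)
  unfold AGi
  refine Finset.sum_congr rfl fun x _ => ?_
  have h1 := closed (β' := bt N₀ L W) hq (fun z _ => rfl) hmax' x
  have h2 := closed (β' := bf (fun i : Fin r => T.toList[i.val]?)) hq hβ hmax' x
  have h3 := cut (κ := val2 W) hq x
  rw [kapT_val2] at h1
  have h4 : M.out (OT W) (pairBits (List.ofFn x) h) =
      M.out (OC W (bf (fun i : Fin r => T.toList[i.val]?))) (pairBits (List.ofFn x) h) := by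
    unfold OT OC
    rw [h3, h1, h2]
  rw [h4]

theorem card_XT : Fintype.card (XT N₀ L) + 1 ≤ 2 ^ (2 * L + 1) := by
  have h1 : Fintype.card (XT N₀ L) = (XS N₀ L).card := Fintype.card_coe _
  have h2 : (XS N₀ L).card ≤ (L + 1) * 2 ^ L := by
    unfold XS
    refine (Finset.card_filter_le _ _).trans (Finset.card_biUnion_le.trans ?_)
    refine (Finset.sum_le_sum (g := fun _ => 2 ^ L) fun l hl => ?_).trans ?_
    · rw [card_strsOf']
      rw [Finset.mem_range] at hl
      exact Nat.pow_le_pow_right (by norm_num) (by omega)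
    · rw [Finset.sum_const, Finset.card_range, smul_eq_mul]
  have h3 : L + 1 ≤ 2 ^ L := Nat.lt_two_pow_self
  have h4 : (L + 1) * 2 ^ L ≤ 2 ^ L * 2 ^ L := Nat.mul_le_mul_right _ h3
  have h5 : 2 ^ (2 * L + 1) = 2 ^ L * 2 ^ L * 2 := by
    rw [← pow_add, pow_succ]
    congr 2
    omega
  have h6 : 1 ≤ 2 ^ L * 2 ^ L := Nat.one_le_iff_ne_zero.2 (by positivity)
  omega

open Classical in
/-- the probability for one algorithm and one advice string -/
theorem one_event {N n p r : ℕ} {M : Alg} {h : List Bool} (hn0 : 0 < n) (hnL : n ≤ L)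
    (hN₀ : N₀ = 16 * (8 ^ (n - 1)) ^ 3) (hN : 2 ^ (9 * L + 4) ≤ N)
    (hp : ∀ x : Fin n → Bool, M.p.eval (pairBits (List.ofFn x) h).length ≤ p)
    (hq : ∀ (x : Fin n → Bool) (O : Oracle), ∀ q ∈ qq M O (pairBits (List.ofFn x) h),
      q.length ≤ L)
    (hpL : 16 * (2 ^ n * p * (L + 1)) ≤ 8 ^ (n - 1)) {δ R : ℝ} (hδ : 0 < δ) :
    Ex unif (fun a : Fin N → Bool => if (1 / 2 + δ) * 2 ^ n <
      AGi (orc N a) (OT (orc N a)) M n h then (1 : ℝ) else 0) ≤
      ((1 / 8) ^ r + 2 * Real.exp (-(2 * R))) +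
        2 ^ ((2 * L + 1) * r) * Real.exp (-(2 * δ ^ 2 * 2 ^ n) + p) := by
  have hX : ∀ z : List Bool, z.length ≤ L → (z ∈ XS N₀ L ↔ n ≤ z.length) := by
    intro z hz
    have h1 : N₀ = 2 ^ (9 * (n - 1) + 4) := by
      rw [hN₀, pow_add, show 9 * (n - 1) = 3 * (n - 1) * 3 by ring, pow_mul, pow_mul]
      norm_num
      ring
    rw [mem_XS, h1]
    constructor
    · rintro ⟨-, h2⟩
      by_contra hlt
      apply h2
      exact Nat.pow_le_pow_right (by norm_num) (by omega)
    · intro h2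
      refine ⟨hz, fun h3 => ?_⟩
      have h4 := (Nat.pow_le_pow_iff_right (by norm_num : 1 < 2)).1 h3
      omega
  have h1 : ∀ a : Fin N → Bool, (if (1 / 2 + δ) * 2 ^ n <
      AGi (orc N a) (OT (orc N a)) M n h then (1 : ℝ) else 0) ≤
      (if PA M n h r (val2 (orc N a)) (bt N₀ L (orc N a)) (om2 N₀ L (orc N a))
        then (1 : ℝ) else 0) + ∑ f : Fin r → Option (XT N₀ L),
        if (1 / 2 + δ) * 2 ^ n < AGi (orc N a) (OC (orc N a) (bf f)) M n h
          then (1 : ℝ) else 0 := by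
    intro a
    have hA : (0 : ℝ) ≤ if PA M n h r (val2 (orc N a)) (bt N₀ L (orc N a)) (om2 N₀ L (orc N a))
        then (1 : ℝ) else 0 := by split_ifs <;> norm_num
    have hB : ∀ f : Fin r → Option (XT N₀ L), (0 : ℝ) ≤
        if (1 / 2 + δ) * 2 ^ n < AGi (orc N a) (OC (orc N a) (bf f)) M n h
          then (1 : ℝ) else 0 := fun f => by split_ifs <;> norm_num
    have hBs := Finset.sum_nonneg fun f (_ : f ∈ (univ : Finset (Fin r → Option (XT N₀ L)))) =>
      hB f
    by_cases hE : (1 / 2 + δ) * 2 ^ n < AGi (orc N a) (OT (orc N a)) M n h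
    · rw [if_pos hE]
      rcases comb (N₀ := N₀) (r := r) hq hE with h2 | ⟨f, h2⟩
      · rw [if_pos h2]
        linarith
      · have h3 := Finset.single_le_sum (f := fun f : Fin r → Option (XT N₀ L) =>
          if (1 / 2 + δ) * 2 ^ n < AGi (orc N a) (OC (orc N a) (bf f)) M n h
          then (1 : ℝ) else 0) (fun f _ => hB f) (Finset.mem_univ f)
        rw [if_pos h2] at h3
        linarith
    · rw [if_neg hE]
      linarith
  refine (Ex_mono unif_nn h1).trans ?_
  rw [Ex_add, Ex_sum]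
  refine add_le_add ?_ ?_
  · have hc : ∀ (κ₀ : List Bool → List Bool) (bb : (∀ x : XT N₀ L, VU x) → XT N₀ L → Bool),
        ((univ.filter (fun ω : ∀ x : XT N₀ L, VU x => PA M n h r κ₀ (bb ω) ω)).card : ℝ) ≤
        ((1 / 8) ^ r + 2 * Real.exp (-(2 * R))) * Fintype.card (∀ x : XT N₀ L, VU x) := by
      intro κ₀ bb
      have h5 := card_P1 (Y := 8 ^ (n - 1)) hp κ₀ (by positivity) hN₀ hpL r R bb
      refine le_trans (Nat.cast_le.2 (Finset.card_le_card (fun ω hω => ?_))) h5
      rw [Finset.mem_filter] at hω ⊢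
      exact hω
    exact Ex_gen (N₀ := N₀) (P := PA M n h r) hN (fun κ₀ κ₀' β ω hk => PA_short hk) hc
  · have hN' : 2 ^ (9 * n + 4) ≤ N :=
      le_trans (Nat.pow_le_pow_right (by norm_num) (by omega)) hN
    refine (Finset.sum_le_sum fun f _ =>
      advi_prob hn0 hnL hN' hX (bf f) M h hp hδ).trans ?_
    rw [Finset.sum_const, nsmul_eq_mul]
    apply mul_le_mul_of_nonneg_right _ (Real.exp_pos _).le
    rw [Finset.card_univ, Fintype.card_fun, Fintype.card_option, Fintype.card_fin]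
    have h2 : (Fintype.card (XT N₀ L) + 1) ^ r ≤ 2 ^ ((2 * L + 1) * r) := by
      rw [pow_mul]
      exact Nat.pow_le_pow_left card_XT r
    exact_mod_cast h2

end Pool.Agent.W908.TS
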