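import Pool.Agent.W908.T.T6
import Pool.Agent.W908.M.M10
import Pool.Agent.W908.N.N12
import Pool.Agent.H620R2.Gauge2.Defs

/-! Exponential time is in `UP` and `coUP`. -/

set_option autoImplicit false

namespace Pool.Agent.W908.TS

open Pool.Agent.NPC Pool.Agent.H620R2.Gauge Pool.Agent.H622R2 Pool.Agent.H676 Finset H568R2
open Pool.Agent.W908 (IsUP mach mach_surj)
open Pool.Agent.W908.MS
open Pool.Agent.W908.UPH (stm poly_stm)
open Pool.Agent.W908.PS (cmb gq cmb_congr length_gq Rare pre_local idx_lt_pow)
open Pool.Agent.W908.KS (kp length_kp kp_inj)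
open Pool.Agent.W908.QS (QAlg qgen qgen_surj)

theorem OT_ans {W : Oracle} (c : Bool) (w z : List Bool) :
    OT W (true :: false :: c :: pairBits w z) =
      (decide (w = ky2 W z) && (!c || tb (val2 W) z)) := by
  show gK (val2 W) (true :: c :: pairBits w z) = _
  rw [gK_cons, unpair_pairBits]
  simp only
  have h1 : (val2 W z).getD (4 * z.length) false = tb (val2 W) z := by
    have hl : 4 * z.length < (val2 W z).length := by
      rw [length_val2]
      omega
    rw [List.getD_eq_getElem _ _ hl]
    simp only [val2_eq W z]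
    rw [List.getElem_append_right (by rw [length_ky2])]
    simp
  rw [h1]
  congr 1
  rw [decide_eq_decide]
  unfold kz
  rw [take_val2]
  constructor
  · intro h
    have h1 := congrArg (fun s => (unpair s).1) h
    simpa only [unpair_pairBits] using h1
  · intro h
    rw [h]

/-- the questions of the verifier -/
def vqt (e : List Bool) (p : Polynomial ℕ) (y : List Bool) : List (List Bool) :=
  vqm (pairBits (unpair y).1 (stm e p (unpair y).2))

theorem poly_vqt (e : List Bool) (p : Polynomial ℕ) : Poly (vqt e p) :=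
  poly_vqm.comp (poly_pairBits (Poly.fst poly_unpair)
    ((poly_stm e p).comp (Poly.snd poly_unpair)))

theorem vrt_iff {W : Oracle} {b : Bool} {e : List Bool} {p : Polynomial ℕ} {w x : List Bool} :
    vrm b (pairBits w x, (vqt e p (pairBits w x)).map (OT W)) = [true] ↔
      w = ky2 W (stm e p x) ∧ tb (val2 W) (stm e p x) = b := by
  unfold vrm vqt vqm
  simp only [unpair_pairBits, List.map_cons, List.map_nil]
  rw [OT_ans, OT_ans]
  constructor
  · intro h
    split_ifs at h with h1
    simp only [List.cons.injEq, and_true, Bool.not_false, Bool.true_or, Bool.and_true,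
      decide_eq_true_eq, Bool.not_true, Bool.false_or] at h1
    obtain ⟨h3, h4⟩ := h1
    rw [decide_eq_true h3, Bool.true_and] at h4
    exact ⟨h3, h4⟩
  · rintro ⟨h1, h2⟩
    rw [if_pos]
    rw [decide_eq_true h1, h2]
    simp

/-- the length of the statement -/
noncomputable def Ks (e : List Bool) (p : Polynomial ℕ) : Polynomial ℕ :=
  Polynomial.C (2 * e.length) + Polynomial.C 2 * Polynomial.X + p + Polynomial.C 2

theorem length_stm (e : List Bool) (p : Polynomial ℕ) (x : List Bool) :
    (stm e p x).length = (Ks e p).eval x.length := by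
  unfold Ks Pool.Agent.W908.UPH.stm
  simp only [Polynomial.eval_add, Polynomial.eval_mul, Polynomial.eval_C, Polynomial.eval_X]
  rw [A2.length_pairBits, A2.length_pairBits, List.length_replicate]
  ring

theorem isUPt (W : Oracle) (e : List Bool) (p : Polynomial ℕ) (b : Bool) :
    IsUP (OT W) {x | tb (val2 W) (stm e p x) = b} := by
  refine ⟨fun y => vrm b (y, (vqt e p y).map (OT W)), 4 * Ks e p,
    IsFP.tt (poly_vqt e p) (poly_vrm b), fun x => ?_, fun x w w' _ _ h h' => ?_⟩
  · constructor
    · intro h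
      refine ⟨ky2 W (stm e p x), ?_, vrt_iff.2 ⟨rfl, h⟩⟩
      rw [length_ky2, length_stm]
      simp only [Polynomial.eval_mul, Polynomial.eval_ofNat]
      exact le_rfl
    · rintro ⟨w, -, h⟩
      exact (vrt_iff.1 h).2
  · rw [(vrt_iff.1 h).1, (vrt_iff.1 h').1]

/-- membership in a language in exponential time is a bit of a long statement -/
theorem exp_tb {W : Oracle} (hW : GoodH W) {L : Set (List Bool)} (hL : IsEXP (OT W) L) :
    ∃ (e : List Bool) (p : Polynomial ℕ), ∀ x, x ∈ L ↔ tb (val2 W) (stm e p x) = true := by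
  obtain ⟨m₀, hm⟩ := hW
  obtain ⟨M, hM⟩ := hL
  obtain ⟨e, he⟩ := mach_surj (M, 0)
  refine ⟨e, M.p + Polynomial.C m₀, fun x => ?_⟩
  obtain ⟨y, h1, h2⟩ := hM x
  have h3 : ¬ Hit W (stm e (M.p + Polynomial.C m₀) x) := by
    refine hm _ ?_
    rw [length_stm]
    unfold Ks
    simp only [Polynomial.eval_add, Polynomial.eval_C]
    omega
  rw [← TT_OT h3]
  unfold Pool.Agent.W908.SP.TT Pool.Agent.W908.SP.mm Pool.Agent.W908.SP.xx
    Pool.Agent.W908.SP.rr Pool.Agent.W908.UPH.stm
  simp only [unpair_pairBits, he, List.length_replicate]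
  rw [Alg.run_mono M (OT W) x y _ _ [] (Nat.pow_le_pow_right (by norm_num) (by
    simp only [Polynomial.eval_add, Polynomial.eval_C]
    omega)) h1, Option.some.injEq]
  exact h2

theorem exp_up {W : Oracle} (hW : GoodH W) {L : Set (List Bool)} (hL : IsEXP (OT W) L) :
    IsUP (OT W) L ∧ IsUP (OT W) Lᶜ := by
  obtain ⟨e, p, h⟩ := exp_tb hW hL
  have h1 : L = {x | tb (val2 W) (stm e p x) = true} := by
    ext x
    exact h x
  have h2 : Lᶜ = {x | tb (val2 W) (stm e p x) = false} := by
    ext x
    rw [Set.mem_compl_iff, h x]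
    simp
  constructor
  · rw [h1]
    exact isUPt W e p true
  · rw [h2]
    exact isUPt W e p false

theorem exists_WT : ∃ W : Oracle, (∀ e, GoodT e W) ∧ GoodH W := by
  obtain ⟨W, hW⟩ := PS.exists_good (Θ := List Bool ⊕ Unit)
    (fun θ => match θ with
      | Sum.inl e => {W | ¬ GoodT e W}
      | Sum.inr _ => {W | ¬ GoodH W})
    (fun θ => match θ with
      | Sum.inl e => rare_goodT e
      | Sum.inr _ => rare_goodH)
  refine ⟨W, fun e => ?_, ?_⟩
  · exact not_not.1 (hW (Sum.inl e))
  · exact not_not.1 (hW (Sum.inr ()))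

/-- A relativized world where every promise problem that quantum computers can solve in polynomial
time can be solved classically in polynomial time, and exponential time is in `UP` and `coUP`. -/
theorem mainT : ∃ O : Oracle,
    (∀ C : List Bool → List Unit × List Gate, PolyTime (fun x => bits (C x)) →
      ∃ D : List Bool → List Bool, IsFP O D ∧ ∀ x : List Bool,
        (2 / 3 ≤ accProb O (C x) → D x = [true]) ∧ (accProb O (C x) ≤ 1 / 3 → D x ≠ [true])) ∧
    ∀ L : Set (List Bool), IsEXP O L → IsUP O L ∧ IsUP O Lᶜ := by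
  obtain ⟨W, h1, h2⟩ := exists_WT
  refine ⟨OT W, fun C hC => ?_, fun L hL => exp_up h2 hL⟩
  obtain ⟨e, he⟩ := qgen_surj (⟨C, hC⟩, ⟨C, hC⟩)
  have h3 := h1 e
  unfold GoodT at h3
  rw [he] at h3
  exact h3

end Pool.Agent.W908.TS
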