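import Pool.Agent.W908.T.T10
import Pool.Agent.W908.T.T7

/-! No quantum advantage, exponential time in `UP` and `coUP`, and exponential hardness on
average. -/

set_option autoImplicit false

namespace Pool.Agent.W908.TS

open Pool.Agent.NPC Pool.Agent.H620R2.Gauge Pool.Agent.H622R2 Pool.Agent.H676 Finset H568R2
open Pool.Agent.W908 (IsUP)
open Pool.Agent.W908.MS
open Pool.Agent.W908.PS (cmb gq cmb_congr length_gq Rare pre_local idx_lt_pow qq qb qb_spec
  out_congr)
open Pool.Agent.W908.SP (mem_strsOf' card_strsOf' idx_inj Ex_owr Ex_unif_av unif_nn unif_sm)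
open Pool.Agent.W908.KS (kp length_kp kp_inj)
open Pool.Agent.W908.HS (big_d ExpHardOnAverage unpair_len2)
open Pool.Agent.W908.QS (QAlg qgen qgen_surj)

theorem exp_num {E : ℕ} (hE : 4 ≤ E) {D Hn p L : ℕ} (hD : E * E * E ≤ D) (hH : 4 * Hn ≤ E)
    (hp : p ≤ E) (hL : 2 * L + 1 ≤ E) {Z : ℕ} (hZ : 0 < Z) (hZE : 4 * Z ≤ E) :
    ((Hn + 1 : ℕ) : ℝ) * (2 ^ Hn * ((1 / 8) ^ E + 2 * Real.exp (-(2 * (E : ℝ))) +
      2 ^ ((2 * L + 1) * E) * Real.exp (-(2 * (D : ℝ)) + p))) ≤ 1 / Z := by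
  have hEr : (4 : ℝ) ≤ E := by exact_mod_cast hE
  have two_le : (2 : ℝ) ≤ Real.exp 1 := by
    have := Real.add_one_le_exp (1 : ℝ)
    linarith
  have pow_le_exp : ∀ k : ℕ, (2 : ℝ) ^ k ≤ Real.exp k := by
    intro k
    calc (2 : ℝ) ^ k ≤ Real.exp 1 ^ k := pow_le_pow_left₀ (by norm_num) two_le _
      _ = Real.exp k := by rw [← Real.exp_nat_mul, mul_one]
  have a1 : (1 / 8 : ℝ) ^ E ≤ Real.exp (-(2 * (E : ℝ))) := by
    have h1 : (1 / 8 : ℝ) ≤ Real.exp (-2) := by
      rw [Real.exp_neg, ← one_div]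
      apply one_div_le_one_div_of_le (Real.exp_pos _)
      have h2 : Real.exp 2 = Real.exp 1 * Real.exp 1 := by
        rw [← Real.exp_add]
        norm_num
      have h3 := Real.exp_one_lt_d9
      have h4 := Real.exp_pos (1 : ℝ)
      rw [h2]
      nlinarith
    calc (1 / 8 : ℝ) ^ E ≤ Real.exp (-2) ^ E := pow_le_pow_left₀ (by norm_num) h1 _
      _ = Real.exp (-(2 * (E : ℝ))) := by
        rw [← Real.exp_nat_mul]
        congr 1
        ring
  have a3 : (2 : ℝ) ^ ((2 * L + 1) * E) * Real.exp (-(2 * (D : ℝ)) + p) ≤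
      Real.exp (-(2 * (E : ℝ))) := by
    refine (mul_le_mul_of_nonneg_right (pow_le_exp _) (Real.exp_pos _).le).trans ?_
    rw [← Real.exp_add]
    apply Real.exp_le_exp.2
    have b1 : (((2 * L + 1) * E : ℕ) : ℝ) ≤ E * E := by
      exact_mod_cast Nat.mul_le_mul_right E hL
    have b2 : (E : ℝ) * E * E ≤ D := by exact_mod_cast hD
    have b3 : (p : ℝ) ≤ E := by exact_mod_cast hp
    nlinarith [mul_nonneg (sub_nonneg.2 hEr) (sub_nonneg.2 hEr),
      mul_nonneg (mul_nonneg (sub_nonneg.2 hEr) (sub_nonneg.2 hEr)) (sub_nonneg.2 hEr)]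
  have a4 : ((Hn + 1 : ℕ) : ℝ) * 2 ^ Hn ≤ Real.exp (E : ℝ) := by
    have h1 : ((Hn + 1 : ℕ) : ℝ) ≤ 2 ^ Hn := by
      have : Hn + 1 ≤ 2 ^ Hn := Nat.lt_two_pow_self
      exact_mod_cast this
    calc ((Hn + 1 : ℕ) : ℝ) * 2 ^ Hn ≤ 2 ^ Hn * 2 ^ Hn :=
          mul_le_mul_of_nonneg_right h1 (by positivity)
      _ = 2 ^ (Hn + Hn) := by rw [pow_add]
      _ ≤ Real.exp ((Hn + Hn : ℕ) : ℝ) := pow_le_exp _
      _ ≤ Real.exp (E : ℝ) := by
        apply Real.exp_le_exp.2
        exact_mod_cast (by omega : Hn + Hn ≤ E)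
  have hZ1 : (0 : ℝ) < Z := by exact_mod_cast hZ
  have hZE' : 4 * (Z : ℝ) ≤ E := by exact_mod_cast hZE
  calc ((Hn + 1 : ℕ) : ℝ) * (2 ^ Hn * ((1 / 8) ^ E + 2 * Real.exp (-(2 * (E : ℝ))) +
      2 ^ ((2 * L + 1) * E) * Real.exp (-(2 * (D : ℝ)) + p)))
      = (((Hn + 1 : ℕ) : ℝ) * 2 ^ Hn) * ((1 / 8) ^ E + 2 * Real.exp (-(2 * (E : ℝ))) +
      2 ^ ((2 * L + 1) * E) * Real.exp (-(2 * (D : ℝ)) + p)) := by ring
    _ ≤ Real.exp (E : ℝ) * (4 * Real.exp (-(2 * (E : ℝ)))) := by
        apply mul_le_mul a4 _ (by positivity) (Real.exp_pos _).le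
        linarith
    _ = 4 * Real.exp (-(E : ℝ)) := by
        rw [show Real.exp (E : ℝ) * (4 * Real.exp (-(2 * (E : ℝ)))) =
          4 * (Real.exp (E : ℝ) * Real.exp (-(2 * (E : ℝ)))) by ring, ← Real.exp_add]
        congr 2
        ring
    _ ≤ 1 / Z := by
        rw [Real.exp_neg, ← one_div, mul_one_div, div_le_div_iff₀ (Real.exp_pos _) hZ1]
        have := Real.add_one_le_exp (E : ℝ)
        linarith

open Classical in
theorem xi_event {n m K L N : ℕ} (M : Alg) (hK : 0 < K) (hn : 16 ≤ n) (hm : 16 * m ≤ n)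
    (hnL : n ≤ L) (hp : M.p.eval (2 * n + 1 + 2 ^ m) ≤ 2 ^ (n / 4))
    (hqL : (qb M).eval (2 * n + 1 + 2 ^ m) ≤ L)
    (hH : 4 * 2 ^ m ≤ 2 ^ (n / 4)) (hL : 2 * L + 1 ≤ 2 ^ (n / 4))
    (hQ : 4 * (K * ((n + 1) * (n + 2))) ≤ 2 ^ (n / 4))
    (hN : 2 ^ (9 * L + 4) ≤ N) :
    Ex unif (fun a : Fin N → Bool => if ∃ c ≤ 2 ^ m, ∃ h ∈ strsOf c,
      (1 / 2 + (1 / 2) ^ m) * 2 ^ n < AGi (orc N a) (OT (orc N a)) M n h then (1 : ℝ) else 0) ≤
      1 / (K * ((n + 1) * (n + 2))) := by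
  obtain ⟨H, hHd⟩ : ∃ H, H = 2 ^ m := ⟨_, rfl⟩
  rw [← hHd] at hH hp hqL ⊢
  obtain ⟨δ, hδ⟩ : ∃ δ : ℝ, δ = (1 / 2) ^ m := ⟨_, rfl⟩
  have hδ0 : 0 < δ := by rw [hδ]; positivity
  rw [← hδ]
  have h1 : ∀ a : Fin N → Bool, (if ∃ c ≤ H, ∃ h ∈ strsOf c,
      (1 / 2 + δ) * 2 ^ n < AGi (orc N a) (OT (orc N a)) M n h then (1 : ℝ) else 0) ≤
      ∑ c ∈ range (H + 1), ∑ h ∈ strsOf c,
        if (1 / 2 + δ) * 2 ^ n < AGi (orc N a) (OT (orc N a)) M n h then (1 : ℝ) else 0 := by
    intro a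
    have hnn : ∀ h : List Bool, (0 : ℝ) ≤ if (1 / 2 + δ) * 2 ^ n <
      AGi (orc N a) (OT (orc N a)) M n h then (1 : ℝ) else 0 := fun h => by
        split_ifs <;> norm_num
    by_cases hE : ∃ c ≤ H, ∃ h ∈ strsOf c, (1 / 2 + δ) * 2 ^ n <
      AGi (orc N a) (OT (orc N a)) M n h
    · rw [if_pos hE]
      obtain ⟨c, hc, h, hh, hj⟩ := hE
      refine le_trans ?_ (Finset.single_le_sum (f := fun c => ∑ h ∈ strsOf c,
        if (1 / 2 + δ) * 2 ^ n < AGi (orc N a) (OT (orc N a)) M n h then (1 : ℝ) else 0)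
        (fun c _ => Finset.sum_nonneg fun h _ => hnn h)
        (Finset.mem_range.2 (by omega : c < H + 1)))
      refine le_trans ?_ (Finset.single_le_sum (f := fun h =>
        if (1 / 2 + δ) * 2 ^ n < AGi (orc N a) (OT (orc N a)) M n h then (1 : ℝ) else 0)
        (fun h _ => hnn h) hh)
      rw [if_pos hj]
    · rw [if_neg hE]
      exact Finset.sum_nonneg fun c _ => Finset.sum_nonneg fun h _ => hnn h
  refine (Ex_mono unif_nn h1).trans ?_
  rw [Ex_sum]
  obtain ⟨E, hEd⟩ : ∃ E, E = 2 ^ (n / 4) := ⟨_, rfl⟩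
  rw [← hEd] at hp hH hL hQ
  obtain ⟨D, hDd⟩ : ∃ D, D = 2 ^ (n - 2 * m) := ⟨_, rfl⟩
  have hE16 : 16 ≤ E := by
    rw [hEd]
    calc 16 = 2 ^ 4 := rfl
      _ ≤ _ := Nat.pow_le_pow_right (by norm_num) (by omega)
  have hD : E * E * E ≤ D := by
    rw [hEd, hDd, ← pow_add, ← pow_add]
    exact Nat.pow_le_pow_right (by norm_num) (by omega)
  have hDr : 2 * δ ^ 2 * 2 ^ n = 2 * (D : ℝ) := by
    rw [hDd, mul_assoc]
    congr 1
    rw [hδ, ← pow_mul, mul_comm m 2, one_div, inv_pow, inv_mul_eq_div,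
      div_eq_iff (by positivity)]
    push_cast
    rw [← pow_add]
    congr 1
    omega
  have hpL : 16 * (2 ^ n * E * (L + 1)) ≤ 8 ^ (n - 1) := by
    have b1 : 16 * (2 ^ n * E * (L + 1)) ≤ 16 * (2 ^ n * E * E) := by
      apply Nat.mul_le_mul_left
      apply Nat.mul_le_mul_left
      omega
    refine b1.trans ?_
    have b2 : 16 * (2 ^ n * E * E) = 2 ^ (4 + n + n / 4 + n / 4) := by
      rw [hEd, pow_add _ (4 + n + n / 4), pow_add _ (4 + n), pow_add _ 4]
      ring
    have b3 : 8 ^ (n - 1) = 2 ^ (3 * (n - 1)) := by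
      rw [pow_mul]
      norm_num
    rw [b2, b3]
    exact Nat.pow_le_pow_right (by norm_num) (by omega)
  have h2 : ∀ c ∈ range (H + 1), Ex unif (fun a : Fin N → Bool => ∑ h ∈ strsOf c,
      if (1 / 2 + δ) * 2 ^ n < AGi (orc N a) (OT (orc N a)) M n h then (1 : ℝ) else 0) ≤
      2 ^ H * ((1 / 8) ^ E + 2 * Real.exp (-(2 * (E : ℝ))) +
        2 ^ ((2 * L + 1) * E) * Real.exp (-(2 * (D : ℝ)) + E)) := by
    intro c hc
    rw [Finset.mem_range, Nat.lt_succ_iff] at hc
    rw [Ex_sum]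
    have h3 : ∀ h ∈ strsOf c, Ex unif (fun a : Fin N → Bool =>
        if (1 / 2 + δ) * 2 ^ n < AGi (orc N a) (OT (orc N a)) M n h then (1 : ℝ) else 0) ≤
        ((1 / 8) ^ E + 2 * Real.exp (-(2 * (E : ℝ))) +
        2 ^ ((2 * L + 1) * E) * Real.exp (-(2 * (D : ℝ)) + E)) := by
      intro h hh
      rw [mem_strsOf'] at hh
      have hl : ∀ x : Fin n → Bool, (pairBits (List.ofFn x) h).length ≤ 2 * n + 1 + H := by
        intro x
        rw [A2.length_pairBits, List.length_ofFn]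
        omega
      rw [← hDr]
      exact one_event (N₀ := 16 * (8 ^ (n - 1)) ^ 3) (L := L) (by omega) hnL rfl hN
        (fun x => (eval_mono M.p (hl x)).trans hp)
        (fun x O q hq => ((qb_spec M O _ q hq).trans (eval_mono (qb M) (hl x))).trans hqL)
        hpL hδ0
    refine (Finset.sum_le_sum h3).trans ?_
    rw [Finset.sum_const, nsmul_eq_mul, card_strsOf']
    apply mul_le_mul_of_nonneg_right _ (by positivity)
    push_cast
    exact pow_le_pow_right₀ (by norm_num) hc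
  refine (Finset.sum_le_sum h2).trans ?_
  rw [Finset.sum_const, Finset.card_range, nsmul_eq_mul]
  have h3 := exp_num (E := E) (D := D) (Hn := H) (p := E) (L := L) (by omega) hD hH le_rfl hL
    (Z := K * ((n + 1) * (n + 2))) (by positivity) hQ
  refine h3.trans (le_of_eq ?_)
  push_cast
  rfl

theorem OT_local {W W' : Oracle} {T : ℕ} (hW : ∀ q : List Bool, q.length ≤ 9 * T + 3 →
    W q = W' q) {q : List Bool} (hq : q.length ≤ T) : OT W q = OT W' q := by
  refine cmb_congr (fun _ _ => rfl) (gK_congr (val2_congr _ _ rfl fun z' hz' =>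
    ky2_local hW ?_))
  have h1 := unpair_len2 ((gq q).drop 2)
  have h2 : ((gq q).drop 2).length ≤ (gq q).length := by
    rw [List.length_drop]
    omega
  have h3 := length_gq q
  omega

theorem AGi_local {W W' : Oracle} {M : Alg} {T n : ℕ} {h : List Bool}
    (hT : (qb M).eval (2 * n + 1 + h.length) ≤ T) (hnT : n ≤ T)
    (hW : ∀ q : List Bool, q.length ≤ 9 * T + 3 → W q = W' q) :
    AGi W (OT W) M n h = AGi W' (OT W') M n h := by
  classical
  unfold AGi
  refine Finset.sum_congr rfl fun x _ => ?_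
  have hl : (pairBits (List.ofFn x) h).length = 2 * n + 1 + h.length := by
    rw [A2.length_pairBits, List.length_ofFn]
    omega
  have h1 := (out_congr M (O := OT W) (O' := OT W') (x := pairBits (List.ofFn x) h) fun q hq => by
    refine (OT_local hW ?_).symm
    have := qb_spec M _ _ q hq
    rw [hl] at this
    omega).1
  have h2 : W (kp (List.ofFn x) 0) = W' (kp (List.ofFn x) 0) := by
    refine hW _ ?_
    rw [length_kp, List.length_ofFn]
    omega
  rw [h1, h2]

/-- the language -/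
def LI (W : Oracle) : Set (List Bool) := {z | (ky2 W z).head? = some true}

theorem mem_LI {W : Oracle} {n : ℕ} (hn : 0 < n) (x : Fin n → Bool) :
    List.ofFn x ∈ LI W ↔ W (kp (List.ofFn x) 0) = true := by
  show (ky2 W (List.ofFn x)).head? = some true ↔ _
  unfold ky2
  rw [List.length_ofFn]
  obtain ⟨k, hk⟩ : ∃ k, 4 * n = k + 1 := ⟨4 * n - 1, by omega⟩
  rw [hk, List.range_succ_eq_map, List.map_cons, List.head?_cons, Option.some.injEq]

/-- the language is exponentially hard on average for the algorithm, with advice -/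
def GoodI (M : Alg) (W : Oracle) : Prop :=
  ∃ d : ℕ, 0 < d ∧ ∀ n, d ≤ n → ∀ h : List Bool, h.length ≤ 2 ^ (n / d) →
    (Set.ncard {x : Fin n → Bool | (M.out (OT W) (pairBits (List.ofFn x) h) = some [true] ↔
      List.ofFn x ∈ LI W)} : ℝ) ≤ (1 / 2 + (1 / 2) ^ (n / d)) * 2 ^ n

theorem ncard_eq_AGi {W : Oracle} {M : Alg} {n : ℕ} (hn : 0 < n) {h : List Bool} :
    (Set.ncard {x : Fin n → Bool | (M.out (OT W) (pairBits (List.ofFn x) h) = some [true] ↔
      List.ofFn x ∈ LI W)} : ℝ) = AGi W (OT W) M n h := by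
  classical
  unfold AGi
  rw [Finset.sum_boole, Set.ncard_eq_toFinset_card']
  congr 2
  ext x
  simp [mem_LI hn x]

theorem rare_goodI (M : Alg) : Rare {W | ¬ GoodI M W} := by
  classical
  intro K hK
  obtain ⟨Q, hQ⟩ : ∃ Q : Polynomial ℕ, Q = Polynomial.C 4 * (qb M + Polynomial.X + 1) + M.p +
      Polynomial.C 4 * Polynomial.X +
      Polynomial.C 4 * (Polynomial.C K * ((Polynomial.X + 1) * (Polynomial.X + 2))) := ⟨_, rfl⟩
  obtain ⟨d, hd16, hd⟩ := big_d Q
  have hQe : ∀ y, Q.eval y = 4 * ((qb M).eval y + y + 1) + M.p.eval y + 4 * y +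
      4 * (K * ((y + 1) * (y + 2))) := by
    intro y
    rw [hQ]
    simp
  obtain ⟨T, hT⟩ : ∃ T : ℕ → ℕ, T = fun n => (qb M).eval (2 * n + 1 + 2 ^ (n / d)) + n :=
    ⟨_, rfl⟩
  have hTe : ∀ n, T n = (qb M).eval (2 * n + 1 + 2 ^ (n / d)) + n := fun n => by rw [hT]
  refine ⟨fun n => 2 ^ (9 * T n + 3 + 1), fun n a => d ≤ n ∧ ∃ c ≤ 2 ^ (n / d), ∃ h ∈ strsOf c,
      (1 / 2 + (1 / 2) ^ (n / d)) * 2 ^ n < AGi (orc _ a) (OT (orc _ a)) M n h, fun n => ?_,
      fun W hW => ?_⟩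
  · by_cases hn : d ≤ n
    · have h := hd n hn
      rw [hQe] at h
      have hpos : 0 < 2 ^ (n / d) := by positivity
      obtain ⟨y, hy⟩ : ∃ y, y = 2 * n + 1 + 2 ^ (n / d) := ⟨_, rfl⟩
      have hTn := hTe n
      have hyn : n ≤ y := by omega
      have hy2 : 2 ^ (n / d) ≤ y := by omega
      rw [← hy] at h hTn
      have hK2 : K * ((n + 1) * (n + 2)) ≤ K * ((y + 1) * (y + 2)) := by
        apply Nat.mul_le_mul_left
        apply Nat.mul_le_mul <;> omega
      have h1 := xi_event (N := 2 ^ (9 * T n + 3 + 1)) (n := n) (m := n / d) (L := T n) M hK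
        (by omega) (by
          have : n / d ≤ n / 16 := Nat.div_le_div_left hd16 (by norm_num)
          omega) (by omega) (by rw [← hy]; omega) (by rw [← hy]; omega) (by omega) (by omega)
        (by omega) (Nat.pow_le_pow_right (by norm_num) (by omega))
      simp only [hn, true_and]
      exact h1
    · simp only [hn, false_and, if_false]
      rw [Ex_const unif_sm]
      positivity
  · by_contra hcon
    push Not at hcon
    refine hW ⟨d, by omega, fun n hn h hh => ?_⟩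
    have hTn := hTe n
    have h0 : (qb M).eval (2 * n + 1 + h.length) ≤ (qb M).eval (2 * n + 1 + 2 ^ (n / d)) :=
      eval_mono _ (by omega)
    rw [ncard_eq_AGi (by omega)]
    have h1 := hcon n hn h.length hh h (mem_strsOf _)
    rw [AGi_local (W' := W) (T := T n) (by omega) (by omega) (fun q hq => pre_local W le_rfl hq)]
      at h1
    exact h1

theorem expHardI {W : Oracle} (hW : ∀ M, GoodI M W) : ExpHardOnAverage (OT W) (LI W) := by
  rintro D ⟨M, hM⟩
  obtain ⟨d, hd, h⟩ := hW M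
  refine ⟨d, hd, fun n hn a ha => ?_⟩
  have h1 := h n hn a ha
  simp only [hM, Option.some.injEq] at h1
  exact h1

/-! ### The language is in `UP` and `coUP` -/

/-- the verifier, from the answers -/
def vri (b : Bool) (p : List Bool × List Bool) : List Bool :=
  if p.2 = [true] then
    (if decide ((unpair p.1).1.head? = some true) = b then [true] else []) else []

theorem poly_vri (b : Bool) : Poly (vri b) :=
  Poly.ite (Poly.decide_eq (Poly.snd Poly.id) (NPC.Poly.const _))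
    (Poly.ite (Poly.decide_eq (Poly.decide_eq
      (Poly.head? (Poly.fst (poly_unpair.comp (Poly.fst Poly.id)))) (NPC.Poly.const _))
      (NPC.Poly.const _)) (NPC.Poly.const _) (NPC.Poly.const _)) (NPC.Poly.const _)

/-- the questions of the verifier -/
def vqi (y : List Bool) : List (List Bool) := [true :: false :: false :: y]

theorem poly_vqi : Poly vqi :=
  Poly.cons (Poly.cons (NPC.Poly.const true) (Poly.cons (NPC.Poly.const false)
    (Poly.cons (NPC.Poly.const false) Poly.id))) (NPC.Poly.const [])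

theorem vri_iff {W : Oracle} {b : Bool} {w x : List Bool} :
    vri b (pairBits w x, (vqi (pairBits w x)).map (OT W)) = [true] ↔
      w = ky2 W x ∧ decide ((ky2 W x).head? = some true) = b := by
  unfold vri vqi
  simp only [List.map_cons, List.map_nil]
  rw [OT_ans]
  simp only [unpair_pairBits, Bool.not_false, Bool.true_or, Bool.and_true]
  constructor
  · intro h
    split_ifs at h with h1 h2
    simp only [List.cons.injEq, and_true, decide_eq_true_eq] at h1
    rw [h1] at h2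
    exact ⟨h1, h2⟩
  · rintro ⟨h1, h2⟩
    rw [h1, if_pos (by simp), if_pos h2]

theorem isUPi (W : Oracle) (b : Bool) :
    IsUP (OT W) {x | decide ((ky2 W x).head? = some true) = b} := by
  refine ⟨fun y => vri b (y, (vqi y).map (OT W)), 4 * Polynomial.X,
    IsFP.tt poly_vqi (poly_vri b), fun x => ?_, fun x w w' _ _ h h' => ?_⟩
  · constructor
    · intro h
      refine ⟨ky2 W x, ?_, vri_iff.2 ⟨rfl, h⟩⟩
      rw [length_ky2]
      simp only [Polynomial.eval_mul, Polynomial.eval_ofNat, Polynomial.eval_X]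
      exact le_rfl
    · rintro ⟨w, -, h⟩
      exact (vri_iff.1 h).2
  · rw [(vri_iff.1 h).1, (vri_iff.1 h').1]

theorem isUP_LI (W : Oracle) : IsUP (OT W) (LI W) := by
  have h : LI W = {x | decide ((ky2 W x).head? = some true) = true} := by
    ext x
    simp [LI]
  rw [h]
  exact isUPi W true

theorem isUP_LIc (W : Oracle) : IsUP (OT W) (LI W)ᶜ := by
  have h : (LI W)ᶜ = {x | decide ((ky2 W x).head? = some true) = false} := by
    ext x
    simp [LI]
  rw [h]
  exact isUPi W false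

theorem exists_WI : ∃ W : Oracle, (∀ e, GoodT e W) ∧ GoodH W ∧ ∀ M, GoodI M W := by
  obtain ⟨W, hW⟩ := PS.exists_good (Θ := List Bool ⊕ (Unit ⊕ Alg))
    (fun θ => match θ with
      | Sum.inl e => {W | ¬ GoodT e W}
      | Sum.inr (Sum.inl _) => {W | ¬ GoodH W}
      | Sum.inr (Sum.inr M) => {W | ¬ GoodI M W})
    (fun θ => match θ with
      | Sum.inl e => rare_goodT e
      | Sum.inr (Sum.inl _) => rare_goodH
      | Sum.inr (Sum.inr M) => rare_goodI M)
  refine ⟨W, fun e => ?_, ?_, fun M => ?_⟩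
  · exact not_not.1 (hW (Sum.inl e))
  · exact not_not.1 (hW (Sum.inr (Sum.inl ())))
  · exact not_not.1 (hW (Sum.inr (Sum.inr M)))

/-- A relativized world where every promise problem that quantum computers can solve in polynomial
time can be solved classically in polynomial time, exponential time is in `UP` and `coUP`, and
some language in `UP` and `coUP` is exponentially hard on average. -/
theorem mainTI : ∃ O : Oracle,
    (∀ C : List Bool → List Unit × List Gate, PolyTime (fun x => bits (C x)) →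
      ∃ D : List Bool → List Bool, IsFP O D ∧ ∀ x : List Bool,
        (2 / 3 ≤ accProb O (C x) → D x = [true]) ∧ (accProb O (C x) ≤ 1 / 3 → D x ≠ [true])) ∧
    (∀ L : Set (List Bool), IsEXP O L → IsUP O L ∧ IsUP O Lᶜ) ∧
    ∃ L : Set (List Bool), IsUP O L ∧ IsUP O Lᶜ ∧ ExpHardOnAverage O L := by
  obtain ⟨W, h1, h2, h3⟩ := exists_WI
  refine ⟨OT W, fun C hC => ?_, fun L hL => exp_up h2 hL, LI W, isUP_LI W, isUP_LIc W,
    expHardI h3⟩
  obtain ⟨e, he⟩ := qgen_surj (⟨C, hC⟩, ⟨C, hC⟩)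
  have h3 := h1 e
  unfold GoodT at h3
  rw [he] at h3
  exact h3

end Pool.Agent.W908.TS
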