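import Pool.Agent.W908.M.M8
import Pool.Agent.W908.T.T1

/-! The found strings can be reached step by step, and the last world is good; the bits are
arbitrary. -/

set_option autoImplicit false

namespace Pool.Agent.W908.TS

open Pool.Agent.NPC Pool.Agent.H620R2.Gauge Pool.Agent.H622R2 Pool.Agent.H676 Finset
open Pool.Agent.W908.MS
open Pool.Agent.W908.PS (cmb gq cmb_congr length_gq tbl)
open Pool.Agent.W908.SP (mem_strsOf')
open Pool.Agent.W908.QS (QAlg qgen qgen_surj qbd qbd_len qbd_ques acc_local cm cm_le cm_nonneg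
  mass_sum acc_close)

/-- the values -/
abbrev VU {N₀ L : ℕ} (x : XT N₀ L) : Type := Fin (4 * x.1.length) → Bool

/-- the keys `ω` and the bits `β`, and `κ₀` for the other strings -/
def kapT {N₀ L : ℕ} (κ₀ : List Bool → List Bool) (ω : ∀ x : XT N₀ L, VU x) (β : XT N₀ L → Bool)
    (z : List Bool) : List Bool :=
  if h : z ∈ XS N₀ L then List.ofFn (ω ⟨z, h⟩) ++ [β ⟨z, h⟩] else κ₀ z

/-- the key with its string -/
def uz {N₀ L : ℕ} (x : XT N₀ L) (v : VU x) : List Bool := pairBits (List.ofFn v) x.1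

theorem kapT_mem {N₀ L : ℕ} (κ₀ : List Bool → List Bool) (ω : ∀ x : XT N₀ L, VU x)
    (β : XT N₀ L → Bool) (x : XT N₀ L) : kz (kapT κ₀ ω β x.1) x.1 = uz x (ω x) := by
  unfold kapT kz uz
  rw [dif_pos x.2, List.take_left' (by rw [List.length_ofFn])]

theorem kapT_len {N₀ L : ℕ} {κ₀ : List Bool → List Bool}
    (h₀ : ∀ z, (κ₀ z).length = 4 * z.length + 1) (ω : ∀ x : XT N₀ L, VU x)
    (β : XT N₀ L → Bool) (z : List Bool) : (kapT κ₀ ω β z).length = 4 * z.length + 1 := by
  unfold kapT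
  split_ifs with h
  · rw [List.length_append, List.length_ofFn, List.length_singleton]
  · exact h₀ z

/-- the weight of the key `v` -/
noncomputable def mmT {N₀ L : ℕ} (F : Oracle) (c : List Unit × List Gate)
    (κ₀ : List Bool → List Bool) (β : XT N₀ L → Bool) (S : Finset (XT N₀ L)) (ω : ∀ x : XT N₀ L, VU x)
    (x : XT N₀ L) (v : VU x) : ℝ :=
  cm (cmb F (gZ (kapT κ₀ ω β) (sS S))) (uq (uz x v)) c

theorem mmT_local {N₀ L : ℕ} (F : Oracle) (c : List Unit × List Gate)
    (κ₀ : List Bool → List Bool) (β β' : XT N₀ L → Bool) (S : Finset (XT N₀ L))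
    (ω ω' : ∀ x : XT N₀ L, VU x) (hβ : ∀ x ∈ S, β x = β' x) (h : Eqo S ω ω') : mmT F c κ₀ β S ω = mmT F c κ₀ β' S ω' := by
  funext x v
  unfold mmT
  rw [gZ_congr (κ := kapT κ₀ ω β) (κ' := kapT κ₀ ω' β') (Z := sS S)]
  intro z hz
  by_cases hx : z ∈ XS N₀ L
  · have h1 : (⟨z, hx⟩ : XT N₀ L) ∈ S := by
      rcases hz with hz | ⟨_, hz⟩
      · exact absurd hz (mem_XS.1 hx).2
      · exact hz
    unfold kapT
    rw [dif_pos hx, dif_pos hx, h _ h1, hβ _ h1]
  · unfold kapT
    rw [dif_neg hx, dif_neg hx]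

theorem mmT_nonneg {N₀ L : ℕ} (F : Oracle) (c : List Unit × List Gate)
    (κ₀ : List Bool → List Bool) (β : XT N₀ L → Bool) (S : Finset (XT N₀ L)) (ω : ∀ x : XT N₀ L, VU x)
    (x : XT N₀ L) (v : VU x) : 0 ≤ mmT F c κ₀ β S ω x v := cm_nonneg (uq_nonneg _) _ _

section

variable {N₀ L B : ℕ} {κ₀ : List Bool → List Bool} {ω : ∀ x : XT N₀ L, VU x}
  {β : XT N₀ L → Bool} {F : Oracle}
  {c : List Unit × List Gate} {t : List Bool}

open Classical in
/-- the found strings -/
noncomputable def SkT (κ₀ : List Bool → List Bool) (ω : ∀ x : XT N₀ L, VU x)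
    (β : XT N₀ L → Bool) (F : Oracle) (B : ℕ) (c : List Unit × List Gate) (t : List Bool) (k : ℕ) : Finset (XT N₀ L) :=
  univ.filter (fun x => ∃ e ∈ hsq (kapT κ₀ ω β) F B c t k, e.1 = kz (kapT κ₀ ω β x.1) x.1)

theorem mem_SkT {k : ℕ} {x : XT N₀ L} : x ∈ SkT κ₀ ω β F B c t k ↔
    ∃ e ∈ hsq (kapT κ₀ ω β) F B c t k, e.1 = kz (kapT κ₀ ω β x.1) x.1 := by
  unfold SkT
  rw [Finset.mem_filter]
  exact ⟨fun h => h.2, fun h => ⟨Finset.mem_univ _, h⟩⟩

theorem SkT_mono {k l : ℕ} (h : k ≤ l) : SkT κ₀ ω β F B c t k ⊆ SkT κ₀ ω β F B c t l := by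
  obtain ⟨d, rfl⟩ := Nat.exists_eq_add_of_le h
  induction d with
  | zero => exact subset_rfl
  | succ d ih =>
    refine (ih (by omega)).trans ?_
    intro x hx
    rw [mem_SkT] at hx ⊢
    obtain ⟨e, he, he2⟩ := hx
    exact ⟨e, List.mem_cons_of_mem _ he, he2⟩

theorem kn_SkT (h₀ : ∀ z, (κ₀ z).length = 4 * z.length + 1) (hN : t.length = N₀)
    (hc2 : ∀ q k, Sum.inr (true, q, k) ∈ c.2 → q.length ≤ L) (k : ℕ) :
    kn (kapT κ₀ ω β) t (hsq (kapT κ₀ ω β) F B c t k) = sS (SkT κ₀ ω β F B c t k) := by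
  ext z
  constructor
  · rintro (hz | hz)
    · left
      rw [← hN]
      exact hz
    · have h1 := found_long (kapT_len h₀ ω β) hc2 k hz
      rw [hN] at h1
      have hx : z ∈ XS N₀ L := mem_XS.2 h1
      exact Or.inr ⟨hx, mem_SkT.2 hz⟩
  · rintro (hz | ⟨hx, hz⟩)
    · left
      rw [hN]
      exact hz
    · exact Or.inr (mem_SkT.1 hz)

theorem reach_SkT (h₀ : ∀ z, (κ₀ z).length = 4 * z.length + 1) (hN : t.length = N₀)
    (ht : ∀ s, idx s < t.length → t.getD (idx s) false = gK (kapT κ₀ ω β) s)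
    (hc2 : ∀ q k, Sum.inr (true, q, k) ∈ c.2 → q.length ≤ L) (k : ℕ) :
    Reach (fun S ω x v => 1 / (B : ℝ) < mmT F c κ₀ β S ω x v) ω (SkT κ₀ ω β F B c t k) := by
  induction k with
  | zero =>
    have : SkT κ₀ ω β F B c t 0 = ∅ := by
      refine Finset.eq_empty_of_forall_notMem fun x hx => ?_
      rw [mem_SkT] at hx
      obtain ⟨e, he, -⟩ := hx
      simp [hsq] at he
    rw [this]
    exact Reach.nil
  | succ k ih =>
    by_cases hz : ∃ z, nx F B c t (hsq (kapT κ₀ ω β) F B c t k) = kz (kapT κ₀ ω β z) z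
    · obtain ⟨z, hz⟩ := hz
      have H : ∃ u, HV F B c t (hsq (kapT κ₀ ω β) F B c t k) u := by
        by_contra H
        unfold nx at hz
        rw [dif_neg H] at hz
        exact kz_ne _ _ hz.symm
      have h1 := nx_spec H
      rw [hz] at h1
      have hf := found_long (F := F) (B := B) (c := c) (t := t) (kapT_len h₀ ω β) hc2 (k + 1)
        (z := z) ⟨_, List.mem_cons_self, hz⟩
      rw [hN] at hf
      have hx : z ∈ XS N₀ L := mem_XS.2 hf
      have h2 : SkT κ₀ ω β F B c t (k + 1) = insert ⟨z, hx⟩ (SkT κ₀ ω β F B c t k) := by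
        ext x
        rw [Finset.mem_insert, mem_SkT, mem_SkT]
        constructor
        · rintro ⟨e, he, he2⟩
          rw [hsq, List.mem_cons] at he
          rcases he with rfl | he
          · left
            simp only at he2
            rw [hz] at he2
            have := congrArg (fun u => (unpair u).2) he2
            simp only [unpair_kz] at this
            exact Subtype.ext this.symm
          · exact Or.inr ⟨e, he, he2⟩
        · rintro (rfl | ⟨e, he, he2⟩)
          · exact ⟨_, List.mem_cons_self, hz⟩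
          · exact ⟨e, List.mem_cons_of_mem _ he, he2⟩
      rw [h2]
      refine ih.step ?_ ?_
      · intro h3
        obtain ⟨e, he, he2⟩ := mem_SkT.1 h3
        exact h1.2.1 e he he2
      · have h3 := h1.2.2
        unfold wg at h3
        rw [kw_hsq (kapT_len h₀ ω β) ht, kn_SkT h₀ hN hc2] at h3
        unfold mmT
        rw [← kapT_mem κ₀ ω β ⟨z, hx⟩]
        exact h3
    · have h2 : SkT κ₀ ω β F B c t (k + 1) = SkT κ₀ ω β F B c t k := by
        refine subset_antisymm ?_ (SkT_mono (by omega))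
        intro x hx
        rw [mem_SkT] at hx ⊢
        obtain ⟨e, he, he2⟩ := hx
        rw [hsq, List.mem_cons] at he
        rcases he with rfl | he
        · exact absurd ⟨x.1, he2⟩ hz
        · exact ⟨e, he, he2⟩
      rw [h2]
      exact ih

/-- without heavy strings all weights are small -/
theorem light_SkT (h₀ : ∀ z, (κ₀ z).length = 4 * z.length + 1) (hN : t.length = N₀)
    (ht : ∀ s, idx s < t.length → t.getD (idx s) false = gK (kapT κ₀ ω β) s)
    (hc2 : ∀ q k, Sum.inr (true, q, k) ∈ c.2 → q.length ≤ L) {k : ℕ}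
    (H : ¬ ∃ u, HV F B c t (hsq (kapT κ₀ ω β) F B c t k) u) (x : XT N₀ L)
    (hx : x ∉ SkT κ₀ ω β F B c t k) : mmT F c κ₀ β (SkT κ₀ ω β F B c t k) ω x (ω x) ≤ 1 / (B : ℝ) := by
  by_contra h
  push Not at h
  apply H
  refine ⟨kz (kapT κ₀ ω β x.1) x.1, ?_, ?_, ?_⟩
  · rw [length_kz (kapT_len h₀ ω β), hN]
    exact (mem_XS.1 x.2).2
  · intro e he he2
    exact hx (mem_SkT.2 ⟨e, he, he2⟩)
  · unfold wg
    rw [kw_hsq (kapT_len h₀ ω β) ht, kn_SkT h₀ hN hc2]
    unfold mmT at h
    rw [← kapT_mem κ₀ ω β x] at h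
    exact h

/-- the last world is good -/
theorem close_SkT (h₀ : ∀ z, (κ₀ z).length = 4 * z.length + 1) (hN : t.length = N₀)
    (ht : ∀ s, idx s < t.length → t.getD (idx s) false = gK (kapT κ₀ ω β) s)
    (hc2 : ∀ q k, Sum.inr (true, q, k) ∈ c.2 → q.length ≤ L) (hLB : L ≤ B) (k : ℕ) :
    |accProb (cmb (trc B SB) (kw t (hsq (kapT κ₀ ω β) (trc B SB) B c t k))) c -
      accProb (cmb SB (gK (kapT κ₀ ω β))) c| ≤ 4 * Real.sqrt (c.2.length *
        ∑ x ∈ (SkT κ₀ ω β (trc B SB) B c t k)ᶜ,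
          mmT (trc B SB) c κ₀ β (SkT κ₀ ω β (trc B SB) B c t k) ω x (ω x)) := by
  obtain ⟨S, hS⟩ : ∃ S, S = SkT κ₀ ω β (trc B SB) B c t k := ⟨_, rfl⟩
  obtain ⟨w, hw⟩ : ∃ w : List Bool → ℝ, w = fun q =>
    ∑ x ∈ Sᶜ, uq (uz x (ω x)) q := ⟨_, rfl⟩
  obtain ⟨A, hA⟩ : ∃ A : Oracle, A = cmb (trc B SB) (gZ (kapT κ₀ ω β) (sS S)) := ⟨_, rfl⟩
  obtain ⟨A', hA'⟩ : ∃ A' : Oracle, A' = fun q => if q.length ≤ L then
    cmb SB (gK (kapT κ₀ ω β)) q else A q := ⟨_, rfl⟩
  rw [kw_hsq (kapT_len h₀ ω β) ht, kn_SkT h₀ hN hc2, ← hS, ← hA]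
  have h1 : accProb (cmb SB (gK (kapT κ₀ ω β))) c = accProb A' c := by
    refine accProb_local (N := 0) fun q k hq y hy => ?_
    rw [hA']
    beta_reduce
    rw [if_pos]
    have := hc2 q k hq
    omega
  rw [h1]
  have hw0 : ∀ q, 0 ≤ w q := by
    intro q
    rw [hw]
    exact Finset.sum_nonneg fun x _ => uq_nonneg _ _
  have h2 := acc_close (A := A) (A' := A') hw0 (fun q hq => ?_) c
  · refine h2.trans (le_of_eq ?_)
    congr 3
    rw [hw]
    unfold cm
    rw [mass_sum]
    refine Finset.sum_congr rfl fun x _ => ?_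
    rw [hA]
    rfl
  · by_contra hlt
    apply hq
    rw [hA']
    beta_reduce
    split_ifs with hl
    swap
    · rfl
    rw [hA]
    refine cmb_congr (fun q' hq' => ?_) ?_
    · unfold trc
      rw [if_pos (by omega)]
    · unfold gZ
      split_ifs with hz
      · rfl
      · cases hg : gK (kapT κ₀ ω β) (gq q) with
        | false => rfl
        | true =>
          exfalso
          obtain ⟨d, z, hqz⟩ := gK_true hg
          rw [hqz] at hz
          have hz1 : (unpair ((true :: d :: kz (kapT κ₀ ω β z) z).drop 2)).2 = z := unpair_kz _ _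
          rw [hz1] at hz
          have hlen : (gq q).length ≤ L := (length_gq q).trans hl
          rw [hqz, List.length_cons, List.length_cons, length_kz (kapT_len h₀ ω β)] at hlen
          have hx : z ∈ XS N₀ L := mem_XS.2 ⟨by omega, fun h => hz (Or.inl h)⟩
          have hxS : (⟨z, hx⟩ : XT N₀ L) ∈ Sᶜ := by
            rw [Finset.mem_compl]
            exact fun h => hz (Or.inr ⟨hx, h⟩)
          apply hlt
          rw [hw]
          refine le_trans ?_ (Finset.single_le_sum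
            (f := fun x : XT N₀ L => uq (uz x (ω x)) q)
            (fun x _ => uq_nonneg _ _) hxS)
          unfold uq
          rw [if_pos]
          rw [hqz, ← kapT_mem κ₀ ω β ⟨z, hx⟩]
          cases d with
          | false => exact Or.inl rfl
          | true => exact Or.inr rfl

end

end Pool.Agent.W908.TS
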