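import Pool.Agent.W908.T.T3
import Pool.Agent.W908.M.M7

/-! The rare event is rare: counting; the bits are arbitrary. -/

set_option autoImplicit false

namespace Pool.Agent.W908.TS

open Pool.Agent.NPC Pool.Agent.H620R2.Gauge Pool.Agent.H622R2 Pool.Agent.H676 Finset
open Pool.Agent.W908.MS
open Pool.Agent.W908.PS (cmb gq cmb_congr length_gq)
open Pool.Agent.W908.SP (mem_strsOf' card_strsOf')
open Pool.Agent.W908.QS (cm cm_le cm_nonneg mass_sum)

variable {N₀ L : ℕ}

theorem uz_inj {x : XT N₀ L} {v v' : VU x} (h : uz x v = uz x v') : v = v' := by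
  unfold uz at h
  have h1 := congrArg (fun u => (unpair u).1) h
  simp only [unpair_pairBits] at h1
  exact List.ofFn_injective h1

theorem sum_uz (x : XT N₀ L) (q : List Bool) : ∑ v : VU x, uq (uz x v) q ≤ 1 := by
  have h1 : ∀ v ∈ (univ : Finset (VU x)), uq (uz x v) q ≤
      if uz x v = (gq q).drop 2 then (1 : ℝ) else 0 := by
    intro v _
    unfold uq
    by_cases h : gq q = true :: false :: uz x v ∨ gq q = true :: true :: uz x v
    · rw [if_pos h, if_pos]
      rcases h with h | h <;> rw [h] <;> rfl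
    · rw [if_neg h]
      split_ifs <;> norm_num
  refine (Finset.sum_le_sum h1).trans ?_
  rw [Finset.sum_boole]
  have h2 : (univ.filter (fun v : VU x => uz x v = (gq q).drop 2)).card ≤ 1 := by
    rw [Finset.card_le_one]
    intro v hv v' hv'
    rw [Finset.mem_filter] at hv hv'
    exact uz_inj (hv.2.trans hv'.2.symm)
  exact_mod_cast h2

theorem sum_mmT (F : Oracle) (c : List Unit × List Gate)
    (κ₀ : List Bool → List Bool) (β : XT N₀ L → Bool) (S : Finset (XT N₀ L))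
    (ω : ∀ x : XT N₀ L, VU x)
    (x : XT N₀ L) : ∑ v, mmT F c κ₀ β S ω x v ≤ c.2.length * 1 := by
  have h1 : ∑ v, mmT F c κ₀ β S ω x v = cm (cmb F (gZ (kapT κ₀ ω β) (sS S)))
      (fun q => ∑ v : VU x, uq (uz x v) q) c := by
    unfold mmT cm
    rw [mass_sum]
  rw [h1]
  exact cm_le (by norm_num) _ _ fun q k _ y _ => sum_uz x y

theorem card_VU (x : XT N₀ L) : (Fintype.card (VU x) : ℝ) = 16 ^ x.1.length := by
  have : Fintype.card (VU x) = 2 ^ (4 * x.1.length) := by simp [VU]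
  rw [this]
  push_cast
  rw [pow_mul]
  norm_num

open Classical in
theorem frac_mmT (F : Oracle) {B : ℕ} (hB0 : 0 < B) (c : List Unit × List Gate)
    (hc1 : c.2.length ≤ L) (κ₀ : List Bool → List Bool) (β : XT N₀ L → Bool)
    (S : Finset (XT N₀ L)) (ω : ∀ x : XT N₀ L, VU x) (x : XT N₀ L) :
    ((univ.filter (fun v => 1 / (B : ℝ) < mmT F c κ₀ β S ω x v)).card : ℝ) ≤
      (L * B * (1 / 16) ^ x.1.length) * Fintype.card (VU x) := by
  have hB1 : (0 : ℝ) < B := by exact_mod_cast hB0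
  have h1 : ((univ.filter (fun v => 1 / (B : ℝ) < mmT F c κ₀ β S ω x v)).card : ℝ) * (1 / B) ≤
      c.2.length * 1 := by
    rw [← nsmul_eq_mul, ← Finset.sum_const]
    refine le_trans ?_ (sum_mmT F c κ₀ β S ω x)
    refine (Finset.sum_le_sum (g := fun v => mmT F c κ₀ β S ω x v) fun v hv =>
      (Finset.mem_filter.1 hv).2.le).trans ?_
    exact Finset.sum_le_sum_of_subset_of_nonneg (Finset.filter_subset _ _)
      fun v _ _ => mmT_nonneg _ _ _ _ _ _ _ _
  rw [mul_one_div, div_le_iff₀ hB1] at h1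
  refine h1.trans ?_
  rw [card_VU]
  have h2 : (L : ℝ) * B * (1 / 16) ^ x.1.length * (16 ^ x.1.length) = L * 1 * B := by
    rw [one_div, inv_pow]
    field_simp
  rw [h2]
  apply mul_le_mul_of_nonneg_right _ hB1.le
  apply mul_le_mul_of_nonneg_right _ (by norm_num)
  exact_mod_cast hc1

open Classical in
theorem card_BdT {B r Y : ℕ} (F : Oracle) (c : List Unit × List Gate)
    (κ₀ : List Bool → List Bool) (hc1 : c.2.length ≤ L) (hLB : L ≤ B) (hB0 : 0 < B)
    (hY : 16 * (B + 1) ^ 3 ≤ Y) (hN : N₀ = 16 * Y ^ 3)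
    (bb : (∀ x : XT N₀ L, VU x) → XT N₀ L → Bool) :
    ((univ.filter (fun ω : ∀ x : XT N₀ L, VU x => BdT F B r c κ₀ (bb ω) ω)).card : ℝ) ≤
      ((1 / 8) ^ r + 2 * Real.exp (-(B / (1024 * ((L : ℝ) + 1))) + 1 / 4)) *
        Fintype.card (∀ x : XT N₀ L, VU x) := by
  have hB1 : (0 : ℝ) < B := by exact_mod_cast hB0
  have hY0 : 0 < Y := lt_of_lt_of_le (by positivity) hY
  have hY1 : (0 : ℝ) < Y := by exact_mod_cast hY0
  have hYr : 16 * ((B : ℝ) + 1) ^ 3 ≤ Y := by exact_mod_cast hY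
  have hLr : (L : ℝ) ≤ B := by exact_mod_cast hLB
  have hL0 : (0 : ℝ) ≤ L := Nat.cast_nonneg _
  have hsX := sum_XT (L := L) hY0 hN
  have hW : (L : ℝ) * ((L + 1) / Y) * B ≤ 1 / 16 := by
    have h1 : (L : ℝ) * (L + 1) * B ≤ (B + 1) ^ 3 := by
      have h2 : (L : ℝ) * (L + 1) ≤ (B + 1) * (B + 1) := by nlinarith
      nlinarith
    rw [← mul_div_assoc, div_mul_eq_mul_div, div_le_iff₀ hY1]
    linarith
  have hB2 : (0 : ℝ) < 1 / B := by positivity
  have hρ : ∀ x : XT N₀ L, (0 : ℝ) ≤ L * B * (1 / 16) ^ x.1.length := fun x => by positivity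
  have hσ : 2 * ∑ x : XT N₀ L, (L : ℝ) * B * (1 / 16) ^ x.1.length ≤ 1 / 8 := by
    rw [← Finset.mul_sum]
    have h3 : (L : ℝ) * B * ∑ x : XT N₀ L, (1 / 16 : ℝ) ^ x.1.length ≤ 1 / 16 := by
      refine (mul_le_mul_of_nonneg_left hsX (by positivity)).trans ?_
      calc (L : ℝ) * B * ((L + 1) / Y) = L * ((L + 1) / Y) * B := by ring
        _ ≤ 1 / 16 := hW
    linarith
  have hE : ∀ (β : XT N₀ L → Bool) (S : Finset (XT N₀ L)) (ω : ∀ x : XT N₀ L, VU x),
      ∑ x, (∑ v, mmT F c κ₀ β S ω x v) / Fintype.card (VU x) ≤ L * ((L + 1) / Y) := by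
    intro β S ω
    refine (Finset.sum_le_sum (g := fun x : XT N₀ L => (L : ℝ) * (1 / 16) ^ x.1.length)
      fun x _ => ?_).trans ?_
    · rw [card_VU, div_le_iff₀ (by positivity)]
      refine (sum_mmT F c κ₀ β S ω x).trans ?_
      have h2 : (L : ℝ) * (1 / 16) ^ x.1.length * (16 ^ x.1.length) = L * 1 := by
        rw [one_div, inv_pow]
        field_simp
      rw [h2]
      apply mul_le_mul_of_nonneg_right _ (by norm_num)
      exact_mod_cast hc1
    · rw [← Finset.mul_sum]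
      exact mul_le_mul_of_nonneg_left hsX hL0
  have h := card_bad2 (X := XT N₀ L) (V := fun x => VU x) (m := mmT F c κ₀)
    (θ := 1 / B) (δ := 1 / (1024 * ((L : ℝ) + 1))) (E := L * ((L + 1) / Y)) hB2
    (mmT_local F c κ₀) (mmT_nonneg F c κ₀) (ρ := fun x => L * B * (1 / 16) ^ x.1.length) hρ
    (frac_mmT F hB0 c hc1 κ₀) (σ := 1 / 8) hσ (by norm_num) hE r bb
  refine le_trans (Nat.cast_le.2 (Finset.card_le_card (fun ω hω => ?_))) (h.trans ?_)
  · rw [Finset.mem_filter] at hω ⊢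
    exact hω
  apply mul_le_mul_of_nonneg_right _ (Nat.cast_nonneg _)
  refine add_le_add_right ?_ _
  apply mul_le_mul_of_nonneg_left _ (by norm_num)
  apply Real.exp_le_exp.2
  have e1 : 1 / (1024 * ((L : ℝ) + 1)) / (1 / B) = B / (1024 * (L + 1)) := by
    field_simp
  have e2 : 2 * ((L : ℝ) * ((L + 1) / Y)) / (1 / B) = 2 * (L * ((L + 1) / Y) * B) := by
    field_simp
  rw [e1, e2]
  linarith

end Pool.Agent.W908.TS
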