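import Pool.Agent.W908.T.T4
import Pool.Agent.W908.S.S3

/-! The oracle in which every bit is the truth of a statement about the shorter strings. -/

set_option autoImplicit false

namespace Pool.Agent.W908.TS

open Pool.Agent.NPC Pool.Agent.H620R2.Gauge Pool.Agent.H622R2 Pool.Agent.H676 Finset H568R2
open Pool.Agent.W908.MS
open Pool.Agent.W908.PS (cmb gq cmb_congr length_gq Rare pre_local idx_lt_pow)
open Pool.Agent.W908.SP (mem_strsOf' card_strsOf' idx_inj Ex_owr Ex_unif_av unif_nn unif_sm)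
open Pool.Agent.H591R3.PHG.Proj (owr owr_e owr_off owr_owr)
open Pool.Agent.W908.QS (QAlg qgen qgen_surj qbd qbd_len qbd_ques)
open Pool.Agent.W908.KS (kp length_kp kp_inj)

/-- the data of the strings shorter than `ℓ` -/
noncomputable def gL (ℓ : ℕ) (κ : List Bool → List Bool) : Oracle := gZ κ {z | z.length < ℓ}

theorem gL_congr {ℓ : ℕ} {κ κ' : List Bool → List Bool}
    (h : ∀ z : List Bool, z.length < ℓ → κ z = κ' z) : gL ℓ κ = gL ℓ κ' :=
  gZ_congr fun z hz => h z hz

open Classical in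
/-- the truth of the statement `z`, for the data of the shorter strings -/
noncomputable def tb (κ : List Bool → List Bool) (z : List Bool) : Bool :=
  decide (SP.TT (cmb SB (gL z.length κ)) z)

theorem tb_congr {κ κ' : List Bool → List Bool} {z : List Bool}
    (h : ∀ z' : List Bool, z'.length < z.length → κ z' = κ' z') : tb κ z = tb κ' z := by
  unfold tb
  rw [gL_congr h]

/-- the key of `z` -/
def ky2 (W : Oracle) (z : List Bool) : List Bool :=
  (List.range (4 * z.length)).map (fun i => W (kp z i))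

theorem length_ky2 (W : Oracle) (z : List Bool) : (ky2 W z).length = 4 * z.length := by
  unfold ky2
  rw [List.length_map, List.length_range]

/-- the values: the key and the truth -/
noncomputable def val2 (W : Oracle) (z : List Bool) : List Bool :=
  ky2 W z ++ [tb (fun z' => if _h : z'.length < z.length then val2 W z' else []) z]
termination_by z.length

theorem val2_eq (W : Oracle) (z : List Bool) : val2 W z = ky2 W z ++ [tb (val2 W) z] := by
  rw [val2]
  congr 2
  refine tb_congr fun z' hz' => ?_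
  rw [dif_pos hz']

theorem length_val2 (W : Oracle) (z : List Bool) : (val2 W z).length = 4 * z.length + 1 := by
  rw [val2_eq, List.length_append, length_ky2, List.length_singleton]

theorem val2_congr {W W' : Oracle} : ∀ (n : ℕ) (z : List Bool), z.length = n →
    (∀ z' : List Bool, z'.length ≤ z.length → ky2 W z' = ky2 W' z') → val2 W z = val2 W' z := by
  intro n
  induction n using Nat.strong_induction_on with
  | _ n ih =>
    intro z hz h
    rw [val2_eq, val2_eq, h z le_rfl]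
    congr 2
    refine tb_congr fun z' hz' => ih z'.length (by omega) z' rfl fun z'' hz'' => h z'' (by omega)

theorem tb_val2_congr {W W' : Oracle} {z : List Bool}
    (h : ∀ z' : List Bool, z'.length < z.length → ky2 W z' = ky2 W' z') :
    tb (val2 W) z = tb (val2 W') z :=
  tb_congr fun z' hz' => val2_congr _ z' rfl fun z'' hz'' => h z'' (by omega)

/-- the keys of the long strings -/
def om2 (N₀ L : ℕ) (W : Oracle) : ∀ x : XT N₀ L, VU x := fun x i => W (kp x.1 i.val)

/-- the bits of the long strings -/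
noncomputable def bt (N₀ L : ℕ) (W : Oracle) : XT N₀ L → Bool := fun x => tb (val2 W) x.1

theorem kapT_val2 (N₀ L : ℕ) (W : Oracle) :
    kapT (val2 W) (om2 N₀ L W) (bt N₀ L W) = val2 W := by
  funext z
  unfold kapT
  split_ifs with h
  · rw [val2_eq]
    congr 1
    refine List.ext_getElem ?_ fun i h1 h2 => ?_
    · rw [List.length_ofFn, length_ky2]
    · rw [List.getElem_ofFn]
      have h3 : (ky2 W z)[i] = W (kp z i) := by
        simp only [ky2, List.getElem_map, List.getElem_range]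
      rw [h3]
      rfl
  · rfl

variable {N₀ L : ℕ}

/-- the free positions -/
abbrev GU (N₀ L : ℕ) : Type := Σ x : XT N₀ L, Fin (4 * x.1.length)

/-- the position of a bit -/
def st2 (g : GU N₀ L) : List Bool := kp g.1.1 g.2.val

theorem st2_inj : Function.Injective (st2 : GU N₀ L → List Bool) := by
  rintro ⟨x, i⟩ ⟨x', i'⟩ h
  obtain ⟨h1, h2⟩ := kp_inj h
  have hx : x = x' := Subtype.ext h1
  subst hx
  exact congrArg (Sigma.mk x) (Fin.ext h2)

theorem length_st2 (g : GU N₀ L) : (st2 g).length ≤ 9 * L + 3 := by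
  unfold st2
  rw [length_kp]
  have h1 := (mem_XS.1 g.1.2).1
  have h2 := g.2.2
  omega

/-- the positions -/
def se2 {N : ℕ} (hN : 2 ^ (9 * L + 4) ≤ N) (g : GU N₀ L) : Fin N :=
  ⟨idx (st2 g), (idx_lt_pow (length_st2 g)).trans_le hN⟩

theorem se2_inj {N : ℕ} (hN : 2 ^ (9 * L + 4) ≤ N) :
    Function.Injective (se2 hN : GU N₀ L → Fin N) := by
  intro g g' h
  exact st2_inj (idx_inj (congrArg Fin.val h))

theorem orc_on2 {N : ℕ} (hN : 2 ^ (9 * L + 4) ≤ N) (a : Fin N → Bool) (v : GU N₀ L → Bool)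
    (g : GU N₀ L) : orc N (owr (se2 hN) a v) (st2 g) = v g := by
  unfold orc
  rw [dif_pos (show idx (st2 g) < N from (se2 hN g).2)]
  exact owr_e (se2_inj hN) a v g

theorem orc_off2 {N : ℕ} (hN : 2 ^ (9 * L + 4) ≤ N) (a : Fin N → Bool) (v : GU N₀ L → Bool)
    {q : List Bool} (hq : ∀ g : GU N₀ L, q ≠ st2 g) :
    orc N (owr (se2 hN) a v) q = orc N a q := by
  unfold orc
  split_ifs with h
  · refine owr_off _ _ ?_
    rintro ⟨g, hg⟩
    exact hq g (idx_inj (congrArg Fin.val hg)).symm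
  · rfl

theorem val2_short {N : ℕ} (hN : 2 ^ (9 * L + 4) ≤ N) (a : Fin N → Bool) (v : GU N₀ L → Bool)
    {z : List Bool} (hz : 2 ^ (9 * z.length + 4) ≤ N₀) :
    val2 (orc N (owr (se2 hN) a v)) z = val2 (orc N a) z := by
  refine val2_congr _ z rfl fun z' hz' => ?_
  unfold ky2
  refine List.map_congr_left fun i _ => orc_off2 hN a _ fun g hg => ?_
  have h2 := (kp_inj hg).1
  refine (mem_XS.1 g.1.2).2 ?_
  rw [← h2]
  refine le_trans (Nat.pow_le_pow_right (by norm_num) ?_) hz
  omega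

open Classical in
/-- the probability of the event, for one circuit -/
theorem Ex_BdT {N B r Y : ℕ} (F : Oracle) (c : List Unit × List Gate) (hc1 : c.2.length ≤ L)
    (hLB : L ≤ B) (hB0 : 0 < B) (hY : 16 * (B + 1) ^ 3 ≤ Y) (hN₀ : N₀ = 16 * Y ^ 3)
    (hN : 2 ^ (9 * L + 4) ≤ N) : Ex unif (fun a : Fin N → Bool =>
      if BdT F B r c (val2 (orc N a)) (bt N₀ L (orc N a)) (om2 N₀ L (orc N a))
        then (1 : ℝ) else 0) ≤
      (1 / 8) ^ r + 2 * Real.exp (-(B / (1024 * ((L : ℝ) + 1))) + 1 / 4) := by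
  rw [Ex_owr (se2 (N₀ := N₀) hN) (se2_inj hN)]
  obtain ⟨γ, hγ⟩ : ∃ γ : ℝ, γ = (1 / 8) ^ r +
    2 * Real.exp (-(B / (1024 * ((L : ℝ) + 1))) + 1 / 4) := ⟨_, rfl⟩
  rw [← hγ]
  refine (Ex_mono unif_nn (G := fun _ => γ) fun a => ?_).trans (le_of_eq (Ex_const unif_sm _))
  obtain ⟨E, hE⟩ : ∃ E : ((x : XT N₀ L) → VU x) ≃ (GU N₀ L → Bool),
    E = (Equiv.piCurry (fun (x : XT N₀ L) (_ : Fin (4 * x.1.length)) => Bool)).symm :=
    ⟨_, rfl⟩
  have h1 := card_BdT (N₀ := N₀) (r := r) F c (val2 (orc N a)) hc1 hLB hB0 hY hN₀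
    (fun ω => bt N₀ L (orc N (owr (se2 hN) a (E ω))))
  rw [← hγ] at h1
  rw [Ex_unif_av, ← E.sum_comp]
  have e1 : ∀ ω : (x : XT N₀ L) → VU x,
      (if BdT F B r c (val2 (orc N (owr (se2 hN) a (E ω))))
        (bt N₀ L (orc N (owr (se2 hN) a (E ω))))
        (om2 N₀ L (orc N (owr (se2 hN) a (E ω)))) then (1 : ℝ) else 0) =
      if BdT F B r c (val2 (orc N a)) (bt N₀ L (orc N (owr (se2 hN) a (E ω)))) ω
        then (1 : ℝ) else 0 := by
    intro ω
    have e2 : om2 N₀ L (orc N (owr (se2 hN) a (E ω))) = ω := by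
      funext x i
      show orc N (owr (se2 hN) a (E ω)) (st2 ⟨x, i⟩) = _
      rw [orc_on2, hE]
      rfl
    rw [e2]
    have e3 := BdT_short (F := F) (B := B) (r := r) (c := c)
      (κ₀ := val2 (orc N (owr (se2 hN) a (E ω)))) (κ₀' := val2 (orc N a)) (fun z hz =>
        val2_short hN a (E ω) hz) (bt N₀ L (orc N (owr (se2 hN) a (E ω)))) ω
    simp only [e3]
  rw [Finset.sum_congr rfl fun ω _ => e1 ω, Finset.sum_boole]
  rw [div_le_iff₀ (by positivity)]
  refine h1.trans (le_of_eq ?_)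
  congr 1
  have h3 := Fintype.card_congr E
  rw [h3, Fintype.card_fun, Fintype.card_bool]
  push_cast
  rfl

open Classical in
/-- the probability of the event, for all inputs of one length -/
theorem Ex_unionT {N B r Y n : ℕ} (F : Oracle) (C : List Bool → List Unit × List Gate)
    (hc1 : ∀ x : List Bool, x.length = n → (C x).2.length ≤ L)
    (hLB : L ≤ B) (hB0 : 0 < B) (hY : 16 * (B + 1) ^ 3 ≤ Y) (hN₀ : N₀ = 16 * Y ^ 3)
    (hN : 2 ^ (9 * L + 4) ≤ N) : Ex unif (fun a : Fin N → Bool =>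
      if ∃ x ∈ strsOf n, BdT F B r (C x) (val2 (orc N a)) (bt N₀ L (orc N a))
        (om2 N₀ L (orc N a)) then (1 : ℝ) else 0) ≤
      2 ^ n * ((1 / 8) ^ r + 2 * Real.exp (-(B / (1024 * ((L : ℝ) + 1))) + 1 / 4)) := by
  have h1 : ∀ a : Fin N → Bool, (if ∃ x ∈ strsOf n, BdT F B r (C x) (val2 (orc N a))
      (bt N₀ L (orc N a)) (om2 N₀ L (orc N a)) then (1 : ℝ) else 0) ≤ ∑ x ∈ strsOf n,
      if BdT F B r (C x) (val2 (orc N a)) (bt N₀ L (orc N a)) (om2 N₀ L (orc N a))
        then (1 : ℝ) else 0 := by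
    intro a
    by_cases hE : ∃ x ∈ strsOf n, BdT F B r (C x) (val2 (orc N a)) (bt N₀ L (orc N a))
      (om2 N₀ L (orc N a))
    · rw [if_pos hE]
      obtain ⟨x, hx, hx2⟩ := hE
      refine le_trans ?_ (Finset.single_le_sum (f := fun x => if BdT F B r (C x)
        (val2 (orc N a)) (bt N₀ L (orc N a)) (om2 N₀ L (orc N a)) then (1 : ℝ) else 0)
        (fun x _ => by split_ifs <;> norm_num) hx)
      rw [if_pos hx2]
    · rw [if_neg hE]
      exact Finset.sum_nonneg fun x _ => by split_ifs <;> norm_num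
  refine (Ex_mono unif_nn h1).trans ?_
  rw [Ex_sum]
  refine (Finset.sum_le_sum fun x hx => Ex_BdT F (C x) (hc1 x (mem_strsOf'.1 hx)) hLB hB0 hY
    hN₀ hN).trans (le_of_eq ?_)
  rw [Finset.sum_const, nsmul_eq_mul, card_strsOf']
  push_cast
  rfl

theorem ky2_local {W W' : Oracle} {D : ℕ} (h : ∀ q : List Bool, q.length ≤ D → W q = W' q)
    {z : List Bool} (hz : 9 * z.length + 3 ≤ D) : ky2 W z = ky2 W' z := by
  unfold ky2
  refine List.map_congr_left fun i hi => h _ ?_
  rw [List.mem_range] at hi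
  rw [length_kp]
  omega

/-- the event is local -/
theorem BdT_local {F : Oracle} {B r D : ℕ} {c : List Unit × List Gate} {W W' : Oracle}
    (hD : 9 * (L + N₀) + 3 ≤ D) (h : ∀ q : List Bool, q.length ≤ D → W q = W' q) :
    BdT F B r c (val2 W) (bt N₀ L W) (om2 N₀ L W) ↔
      BdT F B r c (val2 W') (bt N₀ L W') (om2 N₀ L W') := by
  have h1 : om2 N₀ L W = om2 N₀ L W' := by
    funext x i
    refine h _ ?_
    rw [length_kp]
    have h1 := (mem_XS.1 x.2).1
    have h2 := i.2
    omega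
  have h2 : bt N₀ L W = bt N₀ L W' := by
    funext x
    refine tb_val2_congr fun z' hz' => ky2_local h ?_
    have h1 := (mem_XS.1 x.2).1
    omega
  rw [h1, h2]
  refine BdT_short (fun z hz => ?_) _ _
  refine val2_congr _ z rfl fun z' hz' => ky2_local h ?_
  have h2 : 9 * z.length + 4 < 2 ^ (9 * z.length + 4) := Nat.lt_two_pow_self
  omega

/-- quantum circuits with a promise can be replaced -/
def GoodT (e : List Bool) (W : Oracle) : Prop :=
  ∃ D, IsFP (cmb SB (gK (val2 W))) D ∧ ∀ x : List Bool,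
    (2 / 3 ≤ accProb (cmb SB (gK (val2 W))) ((qgen e).1.C x) → D x = [true]) ∧
    (accProb (cmb SB (gK (val2 W))) ((qgen e).1.C x) ≤ 1 / 3 → D x ≠ [true])

theorem rare_goodT (e : List Bool) : Rare {W | ¬ GoodT e W} := by
  classical
  intro K hK
  obtain ⟨Lp, hLp⟩ : ∃ Lp : Polynomial ℕ, Lp = qbd (qgen e).1 := ⟨_, rfl⟩
  obtain ⟨b, hb⟩ : ∃ b : Polynomial ℕ, b = Polynomial.C 1024 * (Lp + 1) *
    (Polynomial.C 3 * Polynomial.X + Polynomial.C (K + 4)) := ⟨_, rfl⟩
  obtain ⟨Yp, hYp⟩ : ∃ Yp : Polynomial ℕ, Yp = Polynomial.C 16 * (b + 1) ^ 3 := ⟨_, rfl⟩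
  obtain ⟨P, hP⟩ : ∃ P : Polynomial ℕ, P = Polynomial.C 16 * Yp ^ 3 := ⟨_, rfl⟩
  obtain ⟨T, hT⟩ : ∃ T : Polynomial ℕ, T = b * b * (Polynomial.X + Polynomial.C K) + 1 :=
    ⟨_, rfl⟩
  have hbe : ∀ n, b.eval n = 1024 * (Lp.eval n + 1) * (3 * n + K + 4) := by
    intro n
    rw [hb]
    simp only [Polynomial.eval_mul, Polynomial.eval_add, Polynomial.eval_C, Polynomial.eval_X,
      Polynomial.eval_one]
    ring
  have hYe : ∀ n, Yp.eval n = 16 * (b.eval n + 1) ^ 3 := by
    intro n
    rw [hYp]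
    simp only [Polynomial.eval_mul, Polynomial.eval_pow, Polynomial.eval_add, Polynomial.eval_C,
      Polynomial.eval_one]
  have hPe : ∀ n, P.eval n = 16 * (Yp.eval n) ^ 3 := by
    intro n
    rw [hP]
    simp only [Polynomial.eval_mul, Polynomial.eval_pow, Polynomial.eval_C]
  have hTe : ∀ n, T.eval n = b.eval n * b.eval n * (n + K) + 1 := by
    intro n
    rw [hT]
    simp only [Polynomial.eval_mul, Polynomial.eval_add, Polynomial.eval_C, Polynomial.eval_X,
      Polynomial.eval_one]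
  have hLb : ∀ n, Lp.eval n ≤ b.eval n := by
    intro n
    rw [hbe]
    have h1 : 1 ≤ 3 * n + K + 4 := by omega
    nlinarith [Nat.mul_le_mul_left (1024 * (Lp.eval n + 1)) h1]
  have hb0 : ∀ n, 0 < b.eval n := by
    intro n
    rw [hbe]
    positivity
  refine ⟨fun n => 2 ^ (9 * (Lp.eval n + P.eval n) + 3 + 1), fun n a => ∃ x ∈ strsOf n,
    BdT (trc (b.eval n) SB) (b.eval n) (n + K) ((qgen e).1.C x) (val2 (orc _ a))
      (bt (P.eval n) (Lp.eval n) (orc _ a))
      (om2 (P.eval n) (Lp.eval n) (orc _ a)), fun n => ?_, fun W hW => ?_⟩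
  · have h3 := Ex_unionT (N := 2 ^ (9 * (Lp.eval n + P.eval n) + 3 + 1)) (N₀ := P.eval n)
      (L := Lp.eval n) (B := b.eval n) (r := n + K) (Y := Yp.eval n) (n := n)
      (trc (b.eval n) SB) (qgen e).1.C (fun x hx => by rw [hLp, ← hx]; exact qbd_len _ _)
      (hLb n) (hb0 n) (hYe n).ge (hPe n) (Nat.pow_le_pow_right (by norm_num) (by omega))
    have h4 : ((b.eval n : ℕ) : ℝ) / (1024 * (((Lp.eval n : ℕ) : ℝ) + 1)) =
        ((3 * n + K + 4 : ℕ) : ℝ) := by
      rw [hbe, div_eq_iff (by positivity)]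
      push_cast
      ring
    rw [h4] at h3
    have h5 := h3.trans (par_bound hK)
    refine le_trans (le_of_eq ?_) h5
    congr 1
    funext a
    congr 1
  · by_contra hcon
    push Not at hcon
    apply hW
    refine ⟨dec e P b T (val2 W), isFP_dec e P b T (val2 W), fun x => ?_⟩
    have h1 := hcon x.length x (mem_strsOf'.2 rfl)
    rw [BdT_local (W' := W) (D := 9 * (Lp.eval x.length + P.eval x.length) + 3) le_rfl
      (fun q hq => pre_local W le_rfl hq)] at h1
    have h2 := dec_rightT (e := e) (x := x) (P := P) (b := b) (T := T) (L := Lp.eval x.length)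
      (N₀ := P.eval x.length) (r := x.length + K) (κ₀ := val2 W)
      (β := bt (P.eval x.length) (Lp.eval x.length) W)
      (ω := om2 (P.eval x.length) (Lp.eval x.length) W) (length_val2 W) (by rw [hLp]) rfl
      (hLb _) (hb0 _) (fun m hm => by
        rw [hTe]
        have h3 := eval_mono b hm
        have h4 : b.eval x.length * b.eval x.length * (x.length + K) ≤
            b.eval m * b.eval m * (m + K) :=
          Nat.mul_le_mul (Nat.mul_le_mul h3 h3) (by omega)
        omega) h1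
    rw [kapT_val2] at h2
    exact h2

end Pool.Agent.W908.TS
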