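import Pool.Agent.W908.T.T5
import Pool.Agent.W908.H.H3

/-! The simulations do not ask about longer keys. -/

set_option autoImplicit false

namespace Pool.Agent.W908.TS

open Pool.Agent.NPC Pool.Agent.H620R2.Gauge Pool.Agent.H622R2 Pool.Agent.H676 Finset H568R2
open Pool.Agent.W908.MS
open Pool.Agent.W908.PS (cmb gq cmb_congr length_gq Rare pre_local idx_lt_pow)
open Pool.Agent.W908.SP (mem_strsOf' card_strsOf' idx_inj Ex_owr Ex_unif_av unif_nn unif_sm)
open Pool.Agent.H591R3.PHG.Proj (owr owr_e owr_off owr_owr)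
open Pool.Agent.W908.KS (kp length_kp kp_inj)
open Pool.Agent.W908.HS (unpair_len2)

/-- The oracle. -/
noncomputable def OT (W : Oracle) : Oracle := cmb SB (gK (val2 W))

/-- the string of a question -/
def zq (q : List Bool) : List Bool := (unpair ((gq q).drop 2)).2

/-- the key in a question -/
def wq (q : List Bool) : List Bool := (unpair ((gq q).drop 2)).1

theorem length_zq (q : List Bool) : (zq q).length ≤ q.length := by
  unfold zq
  have h1 := unpair_len2 ((gq q).drop 2)
  have h2 : ((gq q).drop 2).length ≤ (gq q).length := by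
    rw [List.length_drop]
    omega
  have h3 := length_gq q
  omega

/-- the questions of the simulation of the statement `z` -/
noncomputable def Qz (W : Oracle) (z : List Bool) : Finset (List Bool) :=
  SP.QQ (cmb SB (gL z.length (val2 W))) z

theorem Qz_congr {W W' : Oracle} {z : List Bool}
    (h : ∀ z' : List Bool, z'.length < z.length → ky2 W z' = ky2 W' z') : Qz W z = Qz W' z := by
  unfold Qz
  rw [gL_congr (κ := val2 W) (κ' := val2 W') fun z' hz' =>
    val2_congr _ z' rfl fun z'' hz'' => h z'' (by omega)]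

/-- the question is about the right key of a string that is not shorter than `n` -/
def Gs (W : Oracle) (n : ℕ) (q : List Bool) : Prop := n ≤ (zq q).length ∧ wq q = ky2 W (zq q)

/-- the simulation of the statement `z` asks about a longer key -/
def Hit (W : Oracle) (z : List Bool) : Prop := ∃ q ∈ Qz W z, Gs W z.length q

theorem take_val2 (W : Oracle) (z : List Bool) : (val2 W z).take (4 * z.length) = ky2 W z := by
  rw [val2_eq, List.take_left' (length_ky2 W z)]

theorem TT_OT {W : Oracle} {z : List Bool} (h : ¬ Hit W z) :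
    SP.TT (OT W) z ↔ tb (val2 W) z = true := by
  classical
  have h1 := (SP.TT_congr (O := cmb SB (gL z.length (val2 W))) (O' := OT W) (z := z)
    fun q hq => ?_).1
  · rw [h1]
    unfold tb
    rw [decide_eq_true_eq]
  · refine cmb_congr (fun _ _ => rfl) ?_
    unfold gL gZ
    by_cases hz : (unpair ((gq q).drop 2)).2 ∈ {z' : List Bool | z'.length < z.length}
    · rw [if_pos hz]
    · rw [if_neg hz]
      cases hg : gK (val2 W) (gq q) with
      | false => rfl
      | true =>
        exfalso
        obtain ⟨c, z', h2⟩ := gK_true hg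
        apply h
        refine ⟨q, hq, ?_, ?_⟩
        · exact not_lt.1 hz
        · unfold wq zq
          rw [h2]
          show (unpair (kz (val2 W z') z')).1 = ky2 W (unpair (kz (val2 W z') z')).2
          rw [unpair_kz]
          unfold kz
          rw [unpair_pairBits, take_val2]

open Classical in
/-- the probability that one question is asked and right -/
theorem Ex_guess {N n B : ℕ} (z : List Bool) (hz : z.length = n)
    (hN : 2 ^ (9 * B + 4) ≤ N) {q : List Bool} (hq : q.length ≤ B) :
    Ex unif (fun a : Fin N → Bool => if q ∈ Qz (orc N a) z ∧ Gs (orc N a) n q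
      then (1 : ℝ) else 0) ≤
    Ex unif (fun a : Fin N → Bool => (1 / 16 : ℝ) ^ n * if q ∈ Qz (orc N a) z
      then (1 : ℝ) else 0) := by
  by_cases hn : n ≤ (zq q).length
  · have hlen : ∀ i : Fin (4 * (zq q).length), (kp (zq q) i.val).length ≤ 9 * B + 3 := by
      intro i
      have h1 := length_zq q
      have h2 := i.2
      rw [length_kp]
      omega
    obtain ⟨e, he⟩ : ∃ e : Fin (4 * (zq q).length) → Fin N, ∀ i, (e i).val =
        idx (kp (zq q) i.val) :=
      ⟨fun i => ⟨idx (kp (zq q) i.val), (idx_lt_pow (hlen i)).trans_le hN⟩, fun i => rfl⟩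
    have hinj : Function.Injective e := by
      intro i i' h
      have h1 : idx (kp (zq q) i.val) = idx (kp (zq q) i'.val) := by
        rw [← he, ← he, h]
      exact Fin.ext (kp_inj (idx_inj h1)).2
    rw [Ex_owr e hinj]
    refine Ex_mono unif_nn fun a => ?_
    have hon : ∀ (v : Fin (4 * (zq q).length) → Bool), ky2 (orc N (owr e a v)) (zq q) =
        List.ofFn v := by
      intro v
      refine List.ext_getElem ?_ fun i h1 h2 => ?_
      · rw [List.length_ofFn, length_ky2]
      · rw [List.length_ofFn] at h2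
        rw [List.getElem_ofFn]
        have h3 : (ky2 (orc N (owr e a v)) (zq q))[i] =
            orc N (owr e a v) (kp (zq q) i) := by
          simp only [ky2, List.getElem_map, List.getElem_range]
        rw [h3]
        unfold orc
        have h4 : idx (kp (zq q) i) < N := by
          have := (e ⟨i, h2⟩).2
          rw [he] at this
          exact this
        rw [dif_pos h4]
        have h5 : (⟨idx (kp (zq q) i), h4⟩ : Fin N) = e ⟨i, h2⟩ := Fin.ext (he ⟨i, h2⟩).symm
        rw [h5]
        exact owr_e hinj a v _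
    have hoff : ∀ (v : Fin (4 * (zq q).length) → Bool), Qz (orc N (owr e a v)) z =
        Qz (orc N a) z := by
      intro v
      refine Qz_congr fun z' hz' => ?_
      unfold ky2
      refine List.map_congr_left fun i _ => ?_
      unfold orc
      split_ifs with h
      · refine owr_off _ _ ?_
        rintro ⟨j, hj⟩
        have h1 := congrArg Fin.val hj
        rw [he] at h1
        have h2 := (kp_inj (idx_inj h1)).1
        rw [← h2] at hz'
        omega
      · rfl
    simp only [hoff]
    by_cases hqa : q ∈ Qz (orc N a) z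
    · rw [if_pos hqa, mul_one]
      have e1 : ∀ v : Fin (4 * (zq q).length) → Bool,
          (if q ∈ Qz (orc N a) z ∧ Gs (orc N (owr e a v)) n q then (1 : ℝ) else 0) =
          if List.ofFn v = wq q then (1 : ℝ) else 0 := by
        intro v
        congr 1
        refine propext ?_
        unfold Gs
        rw [hon]
        exact ⟨fun h => h.2.2.symm, fun h => ⟨hqa, hn, h.symm⟩⟩
      simp only [e1]
      rw [Ex_unif_av, Finset.sum_boole, Fintype.card_fin]
      have h2 : (univ.filter (fun v : Fin (4 * (zq q).length) → Bool =>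
          List.ofFn v = wq q)).card ≤ 1 := by
        rw [Finset.card_le_one]
        intro v hv v' hv'
        rw [Finset.mem_filter] at hv hv'
        exact List.ofFn_injective (hv.2.trans hv'.2.symm)
      have h3 : ((univ.filter (fun v : Fin (4 * (zq q).length) → Bool =>
          List.ofFn v = wq q)).card : ℝ) ≤ 1 := by exact_mod_cast h2
      rw [one_div, inv_pow, ← one_div]
      refine (div_le_div_of_nonneg_right h3 (by positivity)).trans ?_
      apply one_div_le_one_div_of_le (by positivity)
      calc (16 : ℝ) ^ n = 2 ^ (4 * n) := by rw [pow_mul]; norm_num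
        _ ≤ 2 ^ (4 * (zq q).length) := pow_le_pow_right₀ (by norm_num) (by omega)
    · rw [if_neg hqa, mul_zero]
      have e1 : ∀ v : Fin (4 * (zq q).length) → Bool,
          (if q ∈ Qz (orc N a) z ∧ Gs (orc N (owr e a v)) n q then (1 : ℝ) else 0) = 0 := by
        intro v
        rw [if_neg fun h => hqa h.1]
      simp only [e1]
      exact (Ex_const unif_sm _).le
  · refine Ex_mono unif_nn fun a => ?_
    rw [if_neg fun h => hn h.2.1]
    have h1 : (0 : ℝ) ≤ if q ∈ Qz (orc N a) z then (1 : ℝ) else 0 := by split_ifs <;> norm_num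
    positivity

open Classical in
/-- the probability for one statement -/
theorem Ex_Hit {N n B : ℕ} (z : List Bool) (hz : z.length = n)
    (hB : ∀ W : Oracle, ∀ q ∈ Qz W z, q.length ≤ B) (hN : 2 ^ (9 * B + 4) ≤ N) :
    Ex unif (fun a : Fin N → Bool => if Hit (orc N a) z then (1 : ℝ) else 0) ≤
      (1 / 8 : ℝ) ^ n := by
  have h1 : ∀ a : Fin N → Bool, (if Hit (orc N a) z then (1 : ℝ) else 0) ≤
      ∑ q ∈ W_strs B, if q ∈ Qz (orc N a) z ∧ Gs (orc N a) n q then (1 : ℝ) else 0 := by
    intro a
    by_cases hE : Hit (orc N a) z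
    · rw [if_pos hE]
      obtain ⟨q, hq, hq2⟩ := hE
      rw [hz] at hq2
      refine le_trans ?_ (Finset.single_le_sum (f := fun q => if q ∈ Qz (orc N a) z ∧
        Gs (orc N a) n q then (1 : ℝ) else 0)
        (fun x _ => by split_ifs <;> norm_num) (W_mem_strs (hB _ q hq)))
      rw [if_pos ⟨hq, hq2⟩]
    · rw [if_neg hE]
      exact Finset.sum_nonneg fun x _ => by split_ifs <;> norm_num
  refine (Ex_mono unif_nn h1).trans ?_
  rw [Ex_sum]
  refine (Finset.sum_le_sum fun q hq => Ex_guess z hz hN (W_length_of_mem hq)).trans ?_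
  rw [← Ex_sum]
  refine (Ex_mono unif_nn (G := fun _ => (1 / 8 : ℝ) ^ n) fun a => ?_).trans
    (le_of_eq (Ex_const unif_sm _))
  rw [← Finset.mul_sum, Finset.sum_boole]
  have h2 : ((W_strs B).filter (fun q => q ∈ Qz (orc N a) z)).card ≤ 2 ^ n := by
    refine le_trans (Finset.card_le_card fun q hq => (Finset.mem_filter.1 hq).2) ?_
    rw [← hz]
    exact SP.card_QQ _ z
  have h3 : (((W_strs B).filter (fun q => q ∈ Qz (orc N a) z)).card : ℝ) ≤ 2 ^ n := by
    exact_mod_cast h2
  calc (1 / 16 : ℝ) ^ n * (((W_strs B).filter (fun q => q ∈ Qz (orc N a) z)).card : ℝ) ≤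
      (1 / 16 : ℝ) ^ n * 2 ^ n := mul_le_mul_of_nonneg_left h3 (by positivity)
    _ = (1 / 8 : ℝ) ^ n := by
      rw [← mul_pow]
      norm_num

theorem exists_bd (n : ℕ) : ∃ B : ℕ, ∀ z : List Bool, z.length ≤ n → ∀ W : Oracle,
    ∀ q ∈ Qz W z, q.length ≤ B := by
  have h1 : ∀ z : List Bool, ∃ B, ∀ W : Oracle, ∀ q ∈ Qz W z, q.length ≤ B := by
    intro z
    obtain ⟨B, hB⟩ := SP.qs_bound (SP.mm z) (SP.xx z) (SP.rr z)
    refine ⟨B, fun W q hq => ?_⟩
    unfold Qz SP.QQ at hq
    rw [List.mem_toFinset] at hq
    exact hB _ _ [] (by simp) q hq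
  choose f hf using h1
  obtain ⟨B, hB⟩ := SP.finite_bound f n
  exact ⟨B, fun z hz W q hq => (hf z W q hq).trans (hB z hz)⟩

/-- almost all simulations are right -/
def GoodH (W : Oracle) : Prop := ∃ m₀ : ℕ, ∀ z : List Bool, m₀ ≤ z.length → ¬ Hit W z

theorem Hit_local {W W' : Oracle} {z : List Bool} {B : ℕ}
    (hB : ∀ W : Oracle, ∀ q ∈ Qz W z, q.length ≤ B)
    (h : ∀ q : List Bool, q.length ≤ 9 * (B + z.length) + 3 → W q = W' q) :
    Hit W z ↔ Hit W' z := by
  have h1 : Qz W z = Qz W' z := Qz_congr fun z' hz' => ky2_local h (by omega)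
  unfold Hit
  rw [h1]
  refine exists_congr fun q => and_congr_right fun hq => ?_
  unfold Gs
  have h2 := length_zq q
  have h3 := hB _ q hq
  rw [ky2_local h (z := zq q) (by omega)]

theorem num4 : ∀ n : ℕ, 3 ≤ n → n * ((n + 1) * (n + 2)) ≤ 4 ^ n := by
  intro n hn
  induction n, hn using Nat.le_induction with
  | base => norm_num
  | succ n hn ih =>
    rw [pow_succ]
    nlinarith [Nat.zero_le n, Nat.mul_le_mul_right ((n + 1) * (n + 2)) hn]

theorem rare_goodH : Rare {W | ¬ GoodH W} := by
  classical
  intro K hK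
  choose D hD using exists_bd
  refine ⟨fun n => 2 ^ (9 * (D n + n) + 3 + 1), fun n a => K + 3 ≤ n ∧ ∃ z ∈ strsOf n,
    Hit (orc _ a) z, fun n => ?_, fun W hW => ?_⟩
  · by_cases hn : K + 3 ≤ n
    · simp only [hn, true_and]
      have h1 : ∀ a : Fin (2 ^ (9 * (D n + n) + 3 + 1)) → Bool,
          (if ∃ z ∈ strsOf n, Hit (orc _ a) z then (1 : ℝ) else 0) ≤ ∑ z ∈ strsOf n,
          if Hit (orc _ a) z then (1 : ℝ) else 0 := by
        intro a
        by_cases hE : ∃ z ∈ strsOf n, Hit (orc _ a) z
        · rw [if_pos hE]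
          obtain ⟨z, hz, hz2⟩ := hE
          refine le_trans ?_ (Finset.single_le_sum (f := fun z => if Hit (orc _ a) z
            then (1 : ℝ) else 0) (fun x _ => by split_ifs <;> norm_num) hz)
          rw [if_pos hz2]
        · rw [if_neg hE]
          exact Finset.sum_nonneg fun x _ => by split_ifs <;> norm_num
      refine (Ex_mono unif_nn h1).trans ?_
      rw [Ex_sum]
      have h2 : ∀ z ∈ strsOf n, Ex unif (fun a : Fin (2 ^ (9 * (D n + n) + 3 + 1)) → Bool =>
          if Hit (orc _ a) z then (1 : ℝ) else 0) ≤ (1 / 8 : ℝ) ^ n := by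
        intro z hz
        rw [mem_strsOf'] at hz
        exact Ex_Hit z hz (hD n z hz.le) (Nat.pow_le_pow_right (by norm_num) (by omega))
      refine (Finset.sum_le_sum h2).trans ?_
      rw [Finset.sum_const, nsmul_eq_mul, card_strsOf']
      have h3 : ((2 ^ n : ℕ) : ℝ) * (1 / 8 : ℝ) ^ n = 1 / 4 ^ n := by
        push_cast
        rw [← mul_pow, one_div (4 ^ n : ℝ), ← inv_pow]
        norm_num
      rw [h3]
      have hK1 : (0 : ℝ) < K := by exact_mod_cast hK
      apply one_div_le_one_div_of_le (by positivity)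
      have h4 := num4 n (by omega)
      have h5 : K * ((n + 1) * (n + 2)) ≤ 4 ^ n :=
        le_trans (Nat.mul_le_mul_right _ (by omega)) h4
      exact_mod_cast h5
    · simp only [hn, false_and, if_false]
      rw [Ex_const unif_sm]
      positivity
  · by_contra hcon
    push Not at hcon
    refine hW ⟨K + 3, fun z hz hh => ?_⟩
    refine hcon z.length hz z (mem_strsOf'.2 rfl) ?_
    rw [Hit_local (W' := W) (hD z.length z le_rfl) (fun q hq => pre_local W le_rfl hq)]
    exact hh

end Pool.Agent.W908.TS
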