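import Pool.Agent.W908.T.T6
import Pool.Agent.W908.P.P1

/-! The keys that the runs of an algorithm on all inputs of one length ask about. -/

set_option autoImplicit false

namespace Pool.Agent.W908.TS

open Pool.Agent.NPC Pool.Agent.H620R2.Gauge Pool.Agent.H622R2 Pool.Agent.H676 Finset H568R2
open Pool.Agent.W908.MS
open Pool.Agent.W908.PS (cmb gq cmb_congr length_gq Rare pre_local idx_lt_pow qq qb qb_spec
  out_congr)
open Pool.Agent.W908.SP (mem_strsOf' card_strsOf' idx_inj Ex_owr Ex_unif_av unif_nn unif_sm)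
open Pool.Agent.H591R3.PHG.Proj (owr owr_e owr_off owr_owr)
open Pool.Agent.W908.KS (kp length_kp kp_inj)

variable {N₀ L : ℕ}

/-- the oracle that knows the short strings and those of `S` -/
noncomputable def WO (κ₀ : List Bool → List Bool) (β : XT N₀ L → Bool) (S : Finset (XT N₀ L))
    (ω : ∀ x : XT N₀ L, VU x) : Oracle := cmb SB (gZ (kapT κ₀ ω β) (sS S))

theorem WO_local (κ₀ : List Bool → List Bool) {β β' : XT N₀ L → Bool} {S : Finset (XT N₀ L)}
    {ω ω' : ∀ x : XT N₀ L, VU x} (hβ : ∀ x ∈ S, β x = β' x) (h : Eqo S ω ω') :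
    WO κ₀ β S ω = WO κ₀ β' S ω' := by
  unfold WO
  rw [gZ_congr (κ := kapT κ₀ ω β) (κ' := kapT κ₀ ω' β') (Z := sS S)]
  intro z hz
  by_cases hx : z ∈ XS N₀ L
  · have h1 : (⟨z, hx⟩ : XT N₀ L) ∈ S := by
      rcases hz with hz | ⟨_, hz⟩
      · exact absurd hz (mem_XS.1 hx).2
      · exact hz
    unfold kapT
    rw [dif_pos hx, dif_pos hx, h _ h1, hβ _ h1]
  · unfold kapT
    rw [dif_neg hx, dif_neg hx]

theorem WO_short {κ₀ κ₀' : List Bool → List Bool}
    (h : ∀ z : List Bool, 2 ^ (9 * z.length + 4) ≤ N₀ → κ₀ z = κ₀' z) (β : XT N₀ L → Bool)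
    (S : Finset (XT N₀ L)) (ω : ∀ x : XT N₀ L, VU x) : WO κ₀ β S ω = WO κ₀' β S ω := by
  unfold WO
  rw [gZ_congr (κ := kapT κ₀ ω β) (κ' := kapT κ₀' ω β) (Z := sS S)]
  intro z hz
  unfold kapT
  by_cases hx : z ∈ XS N₀ L
  · rw [dif_pos hx, dif_pos hx]
  · rw [dif_neg hx, dif_neg hx]
    rcases hz with hz | ⟨hz, -⟩
    · exact h z hz
    · exact absurd hz hx

/-- some run asks about the key `v` of `z` -/
def HA (M : Alg) (n : ℕ) (h : List Bool) (κ₀ : List Bool → List Bool) (β : XT N₀ L → Bool)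
    (S : Finset (XT N₀ L)) (ω : ∀ x : XT N₀ L, VU x) (z : XT N₀ L) (v : VU z) : Prop :=
  ∃ x : Fin n → Bool, ∃ q ∈ qq M (WO κ₀ β S ω) (pairBits (List.ofFn x) h), ∃ c : Bool,
    gq q = true :: c :: uz z v

open Classical in
/-- the indicator -/
noncomputable def mA (M : Alg) (n : ℕ) (h : List Bool) (κ₀ : List Bool → List Bool)
    (β : XT N₀ L → Bool) (S : Finset (XT N₀ L)) (ω : ∀ x : XT N₀ L, VU x) (z : XT N₀ L)
    (v : VU z) : ℝ := if HA M n h κ₀ β S ω z v then 1 else 0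

theorem mA_lt {M : Alg} {n : ℕ} {h : List Bool} {κ₀ : List Bool → List Bool}
    {β : XT N₀ L → Bool} {S : Finset (XT N₀ L)} {ω : ∀ x : XT N₀ L, VU x} {z : XT N₀ L}
    {v : VU z} : 1 / 2 < mA M n h κ₀ β S ω z v ↔ HA M n h κ₀ β S ω z v := by
  unfold mA
  split_ifs with h1
  · exact ⟨fun _ => h1, fun _ => by norm_num⟩
  · exact ⟨fun h2 => absurd h2 (by norm_num), fun h2 => absurd h2 h1⟩

theorem mA_nonneg (M : Alg) (n : ℕ) (h : List Bool) (κ₀ : List Bool → List Bool)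
    (β : XT N₀ L → Bool) (S : Finset (XT N₀ L)) (ω : ∀ x : XT N₀ L, VU x) (z : XT N₀ L)
    (v : VU z) : 0 ≤ mA M n h κ₀ β S ω z v := by
  unfold mA
  split_ifs <;> norm_num

theorem mA_local (M : Alg) (n : ℕ) (h : List Bool) (κ₀ : List Bool → List Bool)
    (β β' : XT N₀ L → Bool) (S : Finset (XT N₀ L)) (ω ω' : ∀ x : XT N₀ L, VU x)
    (hβ : ∀ x ∈ S, β x = β' x) (he : Eqo S ω ω') :
    mA M n h κ₀ β S ω = mA M n h κ₀ β' S ω' := by
  funext z v
  unfold mA HA
  rw [WO_local κ₀ hβ he]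

open Classical in
/-- the key in a question -/
noncomputable def dk (z : XT N₀ L) (q : List Bool) : VU z :=
  if h : ∃ v : VU z, (gq q).drop 2 = uz z v then h.choose else fun _ => false

open Classical in
theorem card_HA {M : Alg} {n p : ℕ} {h : List Bool}
    (hp : ∀ x : Fin n → Bool, M.p.eval (pairBits (List.ofFn x) h).length ≤ p)
    (κ₀ : List Bool → List Bool) (β : XT N₀ L → Bool) (S : Finset (XT N₀ L))
    (ω : ∀ x : XT N₀ L, VU x) (z : XT N₀ L) :
    (univ.filter (fun v : VU z => HA M n h κ₀ β S ω z v)).card ≤ 2 ^ n * p := by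
  have h1 : (univ.filter (fun v : VU z => HA M n h κ₀ β S ω z v)) ⊆
      (univ : Finset (Fin n → Bool)).biUnion (fun x =>
        (qq M (WO κ₀ β S ω) (pairBits (List.ofFn x) h)).toFinset.image (dk z)) := by
    intro v hv
    rw [Finset.mem_filter] at hv
    obtain ⟨-, x, q, hq, c, hc⟩ := hv
    rw [Finset.mem_biUnion]
    refine ⟨x, Finset.mem_univ _, ?_⟩
    rw [Finset.mem_image]
    refine ⟨q, List.mem_toFinset.2 hq, ?_⟩
    have h2 : ∃ v : VU z, (gq q).drop 2 = uz z v := ⟨v, by rw [hc]; rfl⟩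
    unfold dk
    rw [dif_pos h2]
    have h3 := h2.choose_spec
    refine uz_inj (h3.symm.trans ?_)
    rw [hc]
    rfl
  refine (Finset.card_le_card h1).trans (Finset.card_biUnion_le.trans ?_)
  refine (Finset.sum_le_sum (g := fun _ => p) fun x _ => ?_).trans ?_
  · refine Finset.card_image_le.trans ((List.toFinset_card_le _).trans ?_)
    exact (SP.length_qs M _ _ _ []).trans (hp x)
  · rw [Finset.sum_const, Finset.card_univ, smul_eq_mul]
    simp

theorem sum_mA {M : Alg} {n p : ℕ} {h : List Bool}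
    (hp : ∀ x : Fin n → Bool, M.p.eval (pairBits (List.ofFn x) h).length ≤ p)
    (κ₀ : List Bool → List Bool) (β : XT N₀ L → Bool) (S : Finset (XT N₀ L))
    (ω : ∀ x : XT N₀ L, VU x) (z : XT N₀ L) :
    ∑ v, mA M n h κ₀ β S ω z v ≤ 2 ^ n * p := by
  classical
  unfold mA
  rw [Finset.sum_boole]
  exact_mod_cast card_HA hp κ₀ β S ω z

open Classical in
/-- the number of the cases in which many keys are found -/
theorem card_P1 {M : Alg} {n p Y : ℕ} {h : List Bool}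
    (hp : ∀ x : Fin n → Bool, M.p.eval (pairBits (List.ofFn x) h).length ≤ p)
    (κ₀ : List Bool → List Bool) (hY : 0 < Y) (hN : N₀ = 16 * Y ^ 3)
    (hn : 16 * (2 ^ n * p * (L + 1)) ≤ Y) (r : ℕ) (R : ℝ)
    (bb : (∀ x : XT N₀ L, VU x) → XT N₀ L → Bool) :
    ((univ.filter (fun ω : ∀ x : XT N₀ L, VU x => ∃ S,
      Reach (fun S ω' z v => 1 / 2 < mA M n h κ₀ (bb ω) S ω' z v) ω S ∧ r ≤ S.card)).card : ℝ) ≤
      ((1 / 8) ^ r + 2 * Real.exp (-(2 * R))) * Fintype.card (∀ x : XT N₀ L, VU x) := by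
  have hY1 : (0 : ℝ) < Y := by exact_mod_cast hY
  have hsX := sum_XT (L := L) hY hN
  have hnr : 16 * ((2 : ℝ) ^ n * p * (L + 1)) ≤ Y := by exact_mod_cast hn
  have hρ : ∀ x : XT N₀ L, (0 : ℝ) ≤ 2 ^ n * p * (1 / 16) ^ x.1.length := fun x => by positivity
  have hs : ∑ x : XT N₀ L, (2 : ℝ) ^ n * p * (1 / 16) ^ x.1.length ≤ 1 / 16 := by
    rw [← Finset.mul_sum]
    refine (mul_le_mul_of_nonneg_left hsX (by positivity)).trans ?_
    rw [← mul_div_assoc, div_le_iff₀ hY1]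
    linarith
  have hcard : ∀ x : XT N₀ L, (2 : ℝ) ^ n * p * (1 / 16) ^ x.1.length * Fintype.card (VU x) =
      2 ^ n * p := by
    intro x
    rw [card_VU, one_div, inv_pow]
    field_simp
  have hB : ∀ (β : XT N₀ L → Bool) (S : Finset (XT N₀ L)) (ω : ∀ x : XT N₀ L, VU x)
      (x : XT N₀ L), ((univ.filter (fun v => 1 / 2 < mA M n h κ₀ β S ω x v)).card : ℝ) ≤
      2 ^ n * p * (1 / 16) ^ x.1.length * Fintype.card (VU x) := by
    intro β S ω x
    rw [hcard]
    have h1 := card_HA hp κ₀ β S ω x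
    simp only [mA_lt]
    exact_mod_cast h1
  have hE : ∀ (β : XT N₀ L → Bool) (S : Finset (XT N₀ L)) (ω : ∀ x : XT N₀ L, VU x),
      ∑ x, (∑ v, mA M n h κ₀ β S ω x v) / Fintype.card (VU x) ≤ 1 / 16 := by
    intro β S ω
    refine le_trans (Finset.sum_le_sum fun x _ => ?_) hs
    have h2 : (0 : ℝ) < Fintype.card (VU x) := by
      rw [card_VU]
      positivity
    rw [div_le_iff₀ h2, hcard]
    exact sum_mA hp κ₀ β S ω x
  have h := card_bad2 (X := XT N₀ L) (V := fun x => VU x) (m := mA M n h κ₀)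
    (θ := 1 / 2) (δ := R + 1 / 8) (E := 1 / 16) (by norm_num)
    (mA_local M n h κ₀) (mA_nonneg M n h κ₀)
    (ρ := fun x => 2 ^ n * p * (1 / 16) ^ x.1.length) hρ
    hB (σ := 1 / 8) (by linarith) (by norm_num) hE r bb
  refine le_trans (Nat.cast_le.2 (Finset.card_le_card (fun ω hω => ?_))) (h.trans ?_)
  · rw [Finset.mem_filter] at hω ⊢
    obtain ⟨h1, S, h2, h3⟩ := hω
    exact ⟨h1, S, h2, Or.inl h3⟩
  apply mul_le_mul_of_nonneg_right _ (Nat.cast_nonneg _)
  refine add_le_add_right ?_ _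
  apply mul_le_mul_of_nonneg_left _ (by norm_num)
  apply Real.exp_le_exp.2
  linarith

/-- everything that can be found -/
theorem exists_max {X : Type} [Fintype X] [DecidableEq X] {V : X → Type}
    (H : Finset X → (∀ x, V x) → ∀ x, V x → Prop) (ω : ∀ x, V x) :
    ∃ S, Reach H ω S ∧ ∀ x ∉ S, ¬ H S ω x (ω x) := by
  classical
  obtain ⟨S, hS, hmax⟩ := Finset.exists_max_image (univ.filter (fun S => Reach H ω S))
    Finset.card ⟨∅, Finset.mem_filter.2 ⟨Finset.mem_univ _, Reach.nil⟩⟩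
  rw [Finset.mem_filter] at hS
  refine ⟨S, hS.2, fun x hx hh => ?_⟩
  have h1 := hmax (insert x S) (Finset.mem_filter.2 ⟨Finset.mem_univ _, hS.2.step hx hh⟩)
  rw [Finset.card_insert_of_notMem hx] at h1
  omega

/-- the runs in the world where everything that can be found is known -/
theorem closed {M : Alg} {n : ℕ} {h : List Bool} {κ₀ : List Bool → List Bool}
    {β β' : XT N₀ L → Bool} {S : Finset (XT N₀ L)} {ω : ∀ x : XT N₀ L, VU x}
    (hq : ∀ (x : Fin n → Bool) (O : Oracle), ∀ q ∈ qq M O (pairBits (List.ofFn x) h),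
      q.length ≤ L)
    (hβ : ∀ z ∈ S, β' z = β z) (hmax : ∀ z ∉ S, ¬ HA M n h κ₀ β S ω z (ω z))
    (x : Fin n → Bool) :
    M.out (cmb SB (gZ (kapT κ₀ ω β') {z | z.length ≤ L})) (pairBits (List.ofFn x) h) =
      M.out (WO κ₀ β S ω) (pairBits (List.ofFn x) h) := by
  refine (out_congr M (O := WO κ₀ β S ω) fun q hqq => ?_).1
  unfold WO
  refine cmb_congr (fun _ _ => rfl) ?_
  have hl := (length_gq q).trans (hq x _ q hqq)
  have hzl : (unpair ((gq q).drop 2)).2.length ≤ L := by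
    have h1 := HS.unpair_len2 ((gq q).drop 2)
    have h2 : ((gq q).drop 2).length ≤ (gq q).length := by
      rw [List.length_drop]
      omega
    omega
  unfold gZ
  rw [if_pos (show (unpair ((gq q).drop 2)).2 ∈ {z : List Bool | z.length ≤ L} from hzl)]
  by_cases hz : (unpair ((gq q).drop 2)).2 ∈ sS S
  · rw [if_pos hz]
    refine gK_congr ?_
    generalize (unpair ((gq q).drop 2)).2 = z at hz
    unfold kapT
    by_cases hx : z ∈ XS N₀ L
    · rw [dif_pos hx, dif_pos hx]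
      have h1 : (⟨z, hx⟩ : XT N₀ L) ∈ S := by
        rcases hz with hz | ⟨_, hz⟩
        · exact absurd hz (mem_XS.1 hx).2
        · exact hz
      rw [hβ _ h1]
    · rw [dif_neg hx, dif_neg hx]
  · rw [if_neg hz]
    cases hg : gK (kapT κ₀ ω β') (gq q) with
    | false => rfl
    | true =>
      exfalso
      obtain ⟨c, z, h2⟩ := gK_true hg
      have h3 : (unpair ((gq q).drop 2)).2 = z := by
        rw [h2]
        exact unpair_kz _ _
      rw [h3] at hz hzl
      have hx : z ∈ XS N₀ L := mem_XS.2 ⟨hzl, fun h4 => hz (Or.inl h4)⟩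
      refine hmax ⟨z, hx⟩ (fun h4 => hz (Or.inr ⟨hx, h4⟩)) ⟨x, q, hqq, c, ?_⟩
      rw [h2, ← kapT_mem κ₀ ω β' ⟨z, hx⟩]

/-- long strings do not matter -/
theorem cut {M : Alg} {n : ℕ} {h : List Bool} {κ : List Bool → List Bool}
    (hq : ∀ (x : Fin n → Bool) (O : Oracle), ∀ q ∈ qq M O (pairBits (List.ofFn x) h),
      q.length ≤ L)
    (x : Fin n → Bool) :
    M.out (cmb SB (gK κ)) (pairBits (List.ofFn x) h) =
      M.out (cmb SB (gZ κ {z | z.length ≤ L})) (pairBits (List.ofFn x) h) := by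
  refine (out_congr M (O := cmb SB (gZ κ {z | z.length ≤ L})) fun q hqq => ?_).1
  refine cmb_congr (fun _ _ => rfl) ?_
  have hl := (length_gq q).trans (hq x _ q hqq)
  unfold gZ
  rw [if_pos]
  show (unpair ((gq q).drop 2)).2.length ≤ L
  have h1 := HS.unpair_len2 ((gq q).drop 2)
  have h2 : ((gq q).drop 2).length ≤ (gq q).length := by
    rw [List.length_drop]
    omega
  omega

open Classical in
/-- from numbers to probabilities -/
theorem Ex_gen {N : ℕ} (hN : 2 ^ (9 * L + 4) ≤ N) {γ : ℝ}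
    (P : (List Bool → List Bool) → (XT N₀ L → Bool) → (∀ x : XT N₀ L, VU x) → Prop)
    (hP : ∀ (κ₀ κ₀' : List Bool → List Bool) (β : XT N₀ L → Bool) (ω : ∀ x : XT N₀ L, VU x),
      (∀ z : List Bool, 2 ^ (9 * z.length + 4) ≤ N₀ → κ₀ z = κ₀' z) → (P κ₀ β ω ↔ P κ₀' β ω))
    (hcard : ∀ (κ₀ : List Bool → List Bool) (bb : (∀ x : XT N₀ L, VU x) → XT N₀ L → Bool),
      ((univ.filter (fun ω : ∀ x : XT N₀ L, VU x => P κ₀ (bb ω) ω)).card : ℝ) ≤
        γ * Fintype.card (∀ x : XT N₀ L, VU x)) :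
    Ex unif (fun a : Fin N → Bool =>
      if P (val2 (orc N a)) (bt N₀ L (orc N a)) (om2 N₀ L (orc N a)) then (1 : ℝ) else 0) ≤
      γ := by
  rw [Ex_owr (se2 (N₀ := N₀) hN) (se2_inj hN)]
  refine (Ex_mono unif_nn (G := fun _ => γ) fun a => ?_).trans (le_of_eq (Ex_const unif_sm _))
  obtain ⟨E, hE⟩ : ∃ E : ((x : XT N₀ L) → VU x) ≃ (GU N₀ L → Bool),
    E = (Equiv.piCurry (fun (x : XT N₀ L) (_ : Fin (4 * x.1.length)) => Bool)).symm :=
    ⟨_, rfl⟩
  have h1 := hcard (val2 (orc N a)) (fun ω => bt N₀ L (orc N (owr (se2 hN) a (E ω))))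
  rw [Ex_unif_av, ← E.sum_comp]
  have e1 : ∀ ω : (x : XT N₀ L) → VU x,
      (if P (val2 (orc N (owr (se2 hN) a (E ω))))
        (bt N₀ L (orc N (owr (se2 hN) a (E ω))))
        (om2 N₀ L (orc N (owr (se2 hN) a (E ω)))) then (1 : ℝ) else 0) =
      if P (val2 (orc N a)) (bt N₀ L (orc N (owr (se2 hN) a (E ω)))) ω
        then (1 : ℝ) else 0 := by
    intro ω
    have e2 : om2 N₀ L (orc N (owr (se2 hN) a (E ω))) = ω := by
      funext x i
      show orc N (owr (se2 hN) a (E ω)) (st2 ⟨x, i⟩) = _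
      rw [orc_on2, hE]
      rfl
    rw [e2]
    have e3 := hP (val2 (orc N (owr (se2 hN) a (E ω)))) (val2 (orc N a))
      (bt N₀ L (orc N (owr (se2 hN) a (E ω)))) ω (fun z hz => val2_short hN a (E ω) hz)
    simp only [e3]
  rw [Finset.sum_congr rfl fun ω _ => e1 ω, Finset.sum_boole]
  rw [div_le_iff₀ (by positivity)]
  refine h1.trans (le_of_eq ?_)
  congr 1
  have h3 := Fintype.card_congr E
  rw [h3, Fintype.card_fun, Fintype.card_bool]
  push_cast
  rfl

end Pool.Agent.W908.TS
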