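import Pool.Agent.W908.T.T8
import Pool.Agent.W908.J.J10

/-! The first bits of the keys cannot be foreseen, for fixed bits of the long strings. -/

set_option autoImplicit false

namespace Pool.Agent.W908.TS

open Pool.Agent.NPC Pool.Agent.H620R2.Gauge Pool.Agent.H622R2 Pool.Agent.H676 Finset H568R2
open Pool.Agent.W908.MS
open Pool.Agent.W908.PS (cmb gq cmb_congr length_gq Rare pre_local idx_lt_pow qq qb qb_spec
  out_congr)
open Pool.Agent.W908.SP (mem_strsOf' card_strsOf' idx_inj Ex_owr Ex_unif_av unif_nn unif_sm)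
open Pool.Agent.H591R3.PHG.Proj (owr owr_e owr_off owr_owr)
open Pool.Agent.W908.KS (kp length_kp kp_inj Keyed fb fbE)
open Pool.Agent.W908.KS.JS (key_tail)

variable {N₀ L : ℕ}

/-- the oracle with fixed bits of the long strings -/
noncomputable def OC (W : Oracle) (β : XT N₀ L → Bool) : Oracle :=
  cmb SB (gZ (kapT (val2 W) (om2 N₀ L W) β) {z | z.length ≤ L})

theorem ofFn_om2 (W : Oracle) (x : XT N₀ L) : List.ofFn (om2 N₀ L W x) = ky2 W x.1 := by
  refine List.ext_getElem ?_ fun i h1 h2 => ?_
  · rw [List.length_ofFn, length_ky2]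
  · rw [List.getElem_ofFn]
    have h3 : (ky2 W x.1)[i] = W (kp x.1 i) := by
      simp only [ky2, List.getElem_map, List.getElem_range]
    rw [h3]
    rfl

theorem kz_kapT (W : Oracle) (β : XT N₀ L → Bool) (z : List Bool) :
    kz (kapT (val2 W) (om2 N₀ L W) β z) z = pairBits (ky2 W z) z := by
  by_cases hx : z ∈ XS N₀ L
  · have h1 := kapT_mem (val2 W) (om2 N₀ L W) β ⟨z, hx⟩
    rw [h1]
    unfold uz
    rw [ofFn_om2]
  · unfold kz kapT
    rw [dif_neg hx, take_val2]

/-- the strings of the free positions -/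
def sti (n : ℕ) : ((Fin n → Bool) × Fin (4 * n - 1)) ⊕ (Fin n → Bool) → List Bool
  | Sum.inl g => kp (List.ofFn g.1) (g.2.val + 1)
  | Sum.inr x => kp (List.ofFn x) 0

theorem sti_inj (n : ℕ) : Function.Injective (sti n) := by
  intro g g' h
  match g, g' with
  | Sum.inl g, Sum.inl g' =>
    obtain ⟨h1, h2⟩ := kp_inj h
    exact congrArg Sum.inl (Prod.ext (List.ofFn_injective h1) (Fin.ext (by omega)))
  | Sum.inl g, Sum.inr x =>
    have := (kp_inj h).2
    omega
  | Sum.inr x, Sum.inl g =>
    have := (kp_inj h).2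
    omega
  | Sum.inr x, Sum.inr x' =>
    exact congrArg Sum.inr (List.ofFn_injective (kp_inj h).1)

theorem length_sti (n : ℕ) (g : ((Fin n → Bool) × Fin (4 * n - 1)) ⊕ (Fin n → Bool)) :
    (sti n g).length ≤ 9 * n + 3 := by
  match g with
  | Sum.inl g =>
    unfold sti
    have := g.2.2
    rw [length_kp, List.length_ofFn]
    omega
  | Sum.inr x =>
    unfold sti
    rw [length_kp, List.length_ofFn]
    omega

/-- the positions -/
def sei (n : ℕ) {N : ℕ} (hN : 2 ^ (9 * n + 4) ≤ N)
    (g : ((Fin n → Bool) × Fin (4 * n - 1)) ⊕ (Fin n → Bool)) : Fin N :=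
  ⟨idx (sti n g), (idx_lt_pow (length_sti n g)).trans_le hN⟩

theorem sei_inj (n : ℕ) {N : ℕ} (hN : 2 ^ (9 * n + 4) ≤ N) :
    Function.Injective (sei n hN) := by
  intro g g' h
  exact sti_inj n (idx_inj (congrArg Fin.val h))

open Classical in
/-- the test in a question -/
noncomputable def taui (n : ℕ) (q : List Bool) :
    Option ((Fin n → Bool) × (Fin (4 * n - 1) → Bool)) :=
  if h : ∃ p : (Fin n → Bool) × (Fin (4 * n - 1) → Bool), ∃ c u₀,
    gq q = true :: c :: pairBits (u₀ :: List.ofFn p.2) (List.ofFn p.1) then some h.choose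
      else none

theorem cmb_gZ {κ : List Bool → List Bool} {Z : Set (List Bool)} {q : List Bool} {c : Bool}
    {u : List Bool} (h : gq q = true :: c :: u) :
    cmb SB (gZ κ Z) q = gZ κ Z (true :: c :: u) := by
  match q with
  | [] => simp [gq] at h
  | false :: q => simp [gq] at h
  | true :: false :: q =>
    show gZ κ Z (gq (true :: false :: q)) = _
    rw [h]
  | true :: true :: false :: q => simp [gq] at h
  | true :: true :: true :: q =>
    show gZ κ Z (gq (true :: true :: true :: q)) = _
    rw [h]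
  | [true] => simp [gq] at h
  | [true, true] => simp [gq] at h

theorem keyedi {N n : ℕ} (hn0 : 0 < n) (hnL : n ≤ L) (hN : 2 ^ (9 * n + 4) ≤ N)
    (hX : ∀ z : List Bool, z.length ≤ L → (z ∈ XS N₀ L ↔ n ≤ z.length))
    (β : XT N₀ L → Bool) (a : Fin N → Bool) :
    Keyed (fun (k : (Fin n → Bool) → (Fin (4 * n - 1) → Bool)) (b : (Fin n → Bool) → Bool) =>
      OC (orc N (owr (sei n hN) a (fb (k, b)))) β) (taui n) ∧
    ∀ (k : (Fin n → Bool) → (Fin (4 * n - 1) → Bool)) (b : (Fin n → Bool) → Bool)
      (x : Fin n → Bool),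
      orc N (owr (sei n hN) a (fb (k, b))) (kp (List.ofFn x) 0) = b x := by
  classical
  obtain ⟨A, hA⟩ : ∃ A : ((Fin n → Bool) → (Fin (4 * n - 1) → Bool)) → ((Fin n → Bool) → Bool) →
    Oracle, A = fun k b => orc N (owr (sei n hN) a (fb (k, b))) := ⟨_, rfl⟩
  have hA' : ∀ k b, orc N (owr (sei n hN) a (fb (k, b))) = A k b := by
    intro k b
    rw [hA]
  have hon : ∀ g k b, A k b (sti n g) = fb (k, b) g := by
    intro g k b
    rw [hA]
    beta_reduce
    unfold orc
    rw [dif_pos (show idx (sti n g) < N from (sei n hN g).2)]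
    exact owr_e (sei_inj n hN) a _ g
  have hoff : ∀ s, (∀ g, s ≠ sti n g) → ∀ k b k' b', A k b s = A k' b' s := by
    intro s hs k b k' b'
    rw [hA]
    beta_reduce
    unfold orc
    split_ifs with h
    · have h2 : ¬ ∃ g, sei n hN g = ⟨idx s, h⟩ := by
        rintro ⟨g, hg⟩
        exact hs g (idx_inj (congrArg Fin.val hg)).symm
      rw [owr_off _ _ h2, owr_off _ _ h2]
    · rfl
  have hky : ∀ z : List Bool, z.length ≠ n → ∀ k b k' b', ky2 (A k b) z = ky2 (A k' b') z := by
    intro z hz k b k' b'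
    unfold ky2
    refine List.map_congr_left fun i _ => hoff _ (fun g hg => hz ?_) _ _ _ _
    match g with
    | Sum.inl g => rw [(kp_inj hg).1, List.length_ofFn]
    | Sum.inr x => rw [(kp_inj hg).1, List.length_ofFn]
  have hval : ∀ z : List Bool, z.length ≤ L → z.length ≠ n → ∀ k b k' b',
      kapT (val2 (A k b)) (om2 N₀ L (A k b)) β z =
        kapT (val2 (A k' b')) (om2 N₀ L (A k' b')) β z := by
    intro z hzL hz k b k' b'
    unfold kapT
    by_cases hx : z ∈ XS N₀ L
    · rw [dif_pos hx, dif_pos hx, ofFn_om2, ofFn_om2]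
      rw [hky z hz k b k' b']
    · rw [dif_neg hx, dif_neg hx]
      have h1 : z.length < n := by
        have := (hX z hzL).not.1 hx
        omega
      exact val2_congr _ z rfl fun z' hz' => hky z' (by omega) _ _ _ _
  have hkn : ∀ k b (x : Fin n → Bool), ky2 (A k b) (List.ofFn x) = b x :: List.ofFn (k x) := by
    intro k b x
    refine List.ext_getElem ?_ fun i h1 h2 => ?_
    · rw [length_ky2, List.length_ofFn, List.length_cons, List.length_ofFn]
      omega
    · have h3 : (ky2 (A k b) (List.ofFn x))[i] = A k b (kp (List.ofFn x) i) := by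
        simp only [ky2, List.getElem_map, List.getElem_range]
      rw [h3]
      cases i with
      | zero => exact hon (Sum.inr x) k b
      | succ i =>
        rw [List.length_cons, List.length_ofFn] at h2
        rw [List.getElem_cons_succ, List.getElem_ofFn]
        exact hon (Sum.inl (x, ⟨i, by omega⟩)) k b
  refine ⟨⟨?_, ?_⟩, fun k b x => ?_⟩
  · intro q hq k b k' b'
    simp only [hA']
    refine cmb_congr (fun _ _ => rfl) ?_
    by_cases hzL : (unpair ((gq q).drop 2)).2.length ≤ L
    swap
    · have hzL' : (unpair ((gq q).drop 2)).2 ∉ {z : List Bool | z.length ≤ L} := hzL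
      unfold gZ
      rw [if_neg hzL', if_neg hzL']
    · unfold gZ
      rw [if_pos (show (unpair ((gq q).drop 2)).2 ∈ {z : List Bool | z.length ≤ L} from hzL),
        if_pos (show (unpair ((gq q).drop 2)).2 ∈ {z : List Bool | z.length ≤ L} from hzL)]
      by_cases hzn : (unpair ((gq q).drop 2)).2.length = n
      swap
      · exact gK_congr (hval _ hzL hzn _ _ _ _)
      · have key : ∀ k b, gK (kapT (val2 (A k b)) (om2 N₀ L (A k b)) β) (gq q) = false := by
          intro k b
          cases hg : gK (kapT (val2 (A k b)) (om2 N₀ L (A k b)) β) (gq q) with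
          | false => rfl
          | true =>
            exfalso
            obtain ⟨c, z, h2⟩ := gK_true hg
            rw [kz_kapT] at h2
            have h3 : (unpair ((gq q).drop 2)).2 = z := by
              rw [h2]
              show (unpair (pairBits (ky2 (A k b) z) z)).2 = z
              rw [unpair_pairBits]
            rw [h3] at hzn
            obtain ⟨x, hx⟩ : ∃ x : Fin n → Bool, List.ofFn x = z :=
              ⟨fun i => z.get (i.cast hzn.symm), by
                refine List.ext_getElem (by rw [List.length_ofFn, hzn]) fun i h3 h4 => ?_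
                rw [List.getElem_ofFn]
                rfl⟩
            have hex : ∃ p : (Fin n → Bool) × (Fin (4 * n - 1) → Bool), ∃ c u₀,
                gq q = true :: c :: pairBits (u₀ :: List.ofFn p.2) (List.ofFn p.1) := by
              refine ⟨(x, k x), c, b x, ?_⟩
              rw [h2, ← hx, hkn]
            unfold taui at hq
            rw [dif_pos hex] at hq
            simp at hq
        rw [key, key]
  · intro q x u hτ
    unfold taui at hτ
    split_ifs at hτ with hex
    have hch := hex.choose_spec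
    rw [Option.some.injEq] at hτ
    rw [hτ] at hch
    obtain ⟨c, u₀, hc⟩ := hch
    have hxS : List.ofFn x ∈ XS N₀ L :=
      (hX _ (by rw [List.length_ofFn]; exact hnL)).2 (by rw [List.length_ofFn])
    refine ⟨fun v => decide (v = u₀) && (!c || β ⟨List.ofFn x, hxS⟩), fun k b => ?_⟩
    simp only [hA']
    show cmb SB (gZ _ _) q = _
    rw [cmb_gZ hc]
    have h4 : (unpair ((true :: c :: pairBits (u₀ :: List.ofFn u) (List.ofFn x)).drop 2)).2 =
        List.ofFn x := by
      show (unpair (pairBits (u₀ :: List.ofFn u) (List.ofFn x))).2 = _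
      rw [unpair_pairBits]
    unfold gZ
    rw [h4, if_pos (show List.ofFn x ∈ {z : List Bool | z.length ≤ L} from by
      show (List.ofFn x).length ≤ L
      rw [List.length_ofFn]
      exact hnL)]
    rw [gK_cons, unpair_pairBits]
    simp only
    rw [kz_kapT, hkn]
    have h5 : (kapT (val2 (A k b)) (om2 N₀ L (A k b)) β (List.ofFn x)).getD
        (4 * (List.ofFn x).length) false = β ⟨List.ofFn x, hxS⟩ := by
      unfold kapT
      rw [dif_pos hxS, ofFn_om2, List.getD_append_right _ _ _ _ (by rw [length_ky2]),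
        length_ky2, Nat.sub_self]
      rfl
    rw [h5, ← Bool.and_assoc]
    congr 1
    rw [Bool.eq_iff_iff]
    simp only [decide_eq_true_eq, Bool.and_eq_true]
    constructor
    · intro h
      have h1 := congrArg (fun s => (unpair s).1) h
      simp only [unpair_pairBits, List.cons.injEq] at h1
      exact ⟨(List.ofFn_injective h1.2).symm, h1.1.symm⟩
    · rintro ⟨h1, h2⟩
      rw [h1, h2]
  · rw [hA']
    exact hon (Sum.inr x) k b

open Classical in
/-- the number of the inputs for which the algorithm is right, relative to `O` -/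
noncomputable def AGi (W O : Oracle) (M : Alg) (n : ℕ) (h : List Bool) : ℝ :=
  ∑ x : Fin n → Bool, if (M.out O (pairBits (List.ofFn x) h) = some [true] ↔
    W (kp (List.ofFn x) 0) = true) then (1 : ℝ) else 0

open Classical in
theorem advi_prob {N n p : ℕ} (hn0 : 0 < n) (hnL : n ≤ L) (hN : 2 ^ (9 * n + 4) ≤ N)
    (hX : ∀ z : List Bool, z.length ≤ L → (z ∈ XS N₀ L ↔ n ≤ z.length))
    (β : XT N₀ L → Bool) (M : Alg) (h : List Bool)
    (hp : ∀ x : Fin n → Bool, M.p.eval (pairBits (List.ofFn x) h).length ≤ p) {δ : ℝ}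
    (hδ : 0 < δ) : Ex unif (fun a : Fin N → Bool =>
      if (1 / 2 + δ) * 2 ^ n < AGi (orc N a) (OC (orc N a) β) M n h then (1 : ℝ) else 0) ≤
      Real.exp (-(2 * δ ^ 2 * 2 ^ n) + p) := by
  rw [Ex_owr (sei n hN) (sei_inj n hN)]
  refine (Ex_mono unif_nn (G := fun _ => Real.exp (-(2 * δ ^ 2 * 2 ^ n) + p)) fun a => ?_).trans
    (le_of_eq (Ex_const unif_sm _))
  obtain ⟨hK, hb⟩ := keyedi hn0 hnL hN hX β a
  have h1 := key_tail (M := M) (y := fun x : Fin n → Bool => pairBits (List.ofFn x) h) hK (p := p)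
    hp hδ
  rw [Ex_unif_av, ← (fbE (X := Fin n → Bool) (n := 4 * n - 1)).sum_comp]
  have hXc : (Fintype.card (Fin n → Bool) : ℝ) = 2 ^ n := by simp
  have e1 : ∀ ω : ((Fin n → Bool) → (Fin (4 * n - 1) → Bool)) × ((Fin n → Bool) → Bool),
      (if (1 / 2 + δ) * 2 ^ n < AGi (orc N (owr (sei n hN) a (fbE ω)))
        (OC (orc N (owr (sei n hN) a (fbE ω))) β) M n h then (1 : ℝ) else 0) =
      if (1 / 2 + δ) * Fintype.card (Fin n → Bool) < ∑ x, (if (M.out
        (OC (orc N (owr (sei n hN) a (fb (ω.1, ω.2)))) β)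
        (pairBits (List.ofFn x) h) = some [true] ↔ ω.2 x = true) then (1 : ℝ) else 0)
          then (1 : ℝ) else 0 := by
    intro ω
    rw [hXc]
    congr 1
    refine propext ?_
    unfold AGi
    have e2 : ∀ x : Fin n → Bool, orc N (owr (sei n hN) a (fbE ω))
        (kp (List.ofFn x) 0) = ω.2 x := fun x => hb ω.1 ω.2 x
    simp only [e2]
    rfl
  rw [Finset.sum_congr rfl fun ω _ => e1 ω]
  have hXc' : Fintype.card (Fin n → Bool) = 2 ^ n := by simp
  have hG : Fintype.card (((Fin n → Bool) × Fin (4 * n - 1)) ⊕ (Fin n → Bool)) =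
      2 ^ n * (4 * n - 1) + 2 ^ n := by
    simp
  rw [hG, div_le_iff₀ (by positivity)]
  refine h1.trans ?_
  rw [hXc']
  have e4 : (2 : ℝ) ^ (2 ^ n) * (2 ^ (4 * n - 1)) ^ (2 ^ n) =
      2 ^ (2 ^ n * (4 * n - 1) + 2 ^ n) := by
    rw [← pow_mul, ← pow_add]
    congr 1
    ring
  rw [e4, mul_comm]
  apply mul_le_mul_of_nonneg_right _ (by positivity)
  apply Real.exp_le_exp.2
  push_cast
  have e3 : (2 : ℝ) ^ n * (2 ^ n * p / 2 ^ (4 * n - 1)) ≤ p := by
    have h5 : (2 : ℝ) ^ (4 * n - 1) = 2 ^ n * 2 ^ n * 2 ^ (2 * n - 1) := by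
      rw [← pow_add, ← pow_add]
      congr 1
      omega
    have h6 : (2 : ℝ) ^ n * (2 ^ n * p / 2 ^ (4 * n - 1)) = p / 2 ^ (2 * n - 1) := by
      rw [h5]
      field_simp
    rw [h6]
    exact div_le_self (Nat.cast_nonneg _) (one_le_pow₀ (by norm_num))
  linarith

end Pool.Agent.W908.TS
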